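import Mathlib

/-!
# The classes of a copy
-/

set_option autoImplicit false

namespace Pool.Agent.H248.HG

/-- the host classes of the vertices of one transversal -/
theorem copy_classes_one {W : Type} [DecidableEq W] {r n : ℕ} (emb : Fin (r + 1) × W ↪ Fin n)
    (a : Fin (r + 1) → Fin n) (v : Fin (r + 1) → W)
    (h : Finset.univ.image a = Finset.univ.image fun i => emb (i, v i)) :
    ∃ σ : Equiv.Perm (Fin (r + 1)), ∀ i, a i = emb (σ i, v (σ i)) := by
  have h1 : ∀ i, ∃ j, emb (j, v j) = a i := by
    intro i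
    have h2 : a i ∈ Finset.univ.image fun i => emb (i, v i) := by
      rw [← h]
      exact Finset.mem_image_of_mem a (Finset.mem_univ i)
    obtain ⟨j, -, hj⟩ := Finset.mem_image.mp h2
    exact ⟨j, hj⟩
  choose σ hσ using h1
  have hs : Function.Surjective σ := by
    intro j
    have h2 : emb (j, v j) ∈ Finset.univ.image a := by
      rw [h]
      exact Finset.mem_image_of_mem (fun i => emb (i, v i)) (Finset.mem_univ j)
    obtain ⟨i, -, hi⟩ := Finset.mem_image.mp h2
    refine ⟨i, ?_⟩
    have h3 := emb.injective ((hσ i).trans hi)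
    exact congrArg Prod.fst h3
  exact ⟨Equiv.ofBijective σ ⟨Finite.injective_iff_surjective.mpr hs, hs⟩, fun i => (hσ i).symm⟩

theorem copy_classes {W : Type} [DecidableEq W] {r n : ℕ} (emb : Fin (r + 1) × W ↪ Fin n)
    (E : Set (Fin (r + 1) → W)) (A : Fin (r + 1) → Finset (Fin n)) (hA : ∀ i, (A i).Nonempty)
    (h : ∀ a : Fin (r + 1) → Fin n, (∀ i, a i ∈ A i) →
      ∃ v ∈ E, Finset.univ.image a = Finset.univ.image fun i => emb (i, v i)) :
    ∃ (π : Equiv.Perm (Fin (r + 1))) (B : Fin (r + 1) → Finset W),
      (∀ i, A i = (B i).image fun w => emb (π i, w)) ∧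
      ∀ b : Fin (r + 1) → W, (∀ i, b i ∈ B i) → (fun j => b (π.symm j)) ∈ E := by
  choose a0 ha0 using hA
  obtain ⟨v0, -, hv0⟩ := h a0 ha0
  obtain ⟨π, hπ⟩ := copy_classes_one emb a0 v0 hv0
  have key : ∀ i, ∀ x ∈ A i, ∃ w, x = emb (π i, w) := by
    intro i x hx
    have ha : ∀ k, Function.update a0 i x k ∈ A k := by
      intro k
      by_cases hk : k = i
      · subst hk
        rw [Function.update_self]
        exact hx
      · rw [Function.update_of_ne hk]
        exact ha0 k
    obtain ⟨v, -, hv⟩ := h _ ha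
    obtain ⟨σ, hσ⟩ := copy_classes_one emb _ v hv
    have hne : ∀ k, k ≠ i → σ k = π k := by
      intro k hk
      have h1 := hσ k
      rw [Function.update_of_ne hk, hπ k] at h1
      exact (congrArg Prod.fst (emb.injective h1)).symm
    have hi : σ i = π i := by
      obtain ⟨k, hk⟩ := π.surjective (σ i)
      by_cases hki : k = i
      · rw [← hk, hki]
      · have h1 := hne k hki
        rw [hk] at h1
        exact absurd (σ.injective h1) hki
    have h1 := hσ i
    rw [Function.update_self, hi] at h1
    exact ⟨_, h1⟩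
  have hinj : ∀ i, Function.Injective fun w => emb (π i, w) := by
    intro i w w' hw
    exact congrArg Prod.snd (emb.injective hw)
  have hmem : ∀ i w, w ∈ (A i).preimage (fun w => emb (π i, w)) (hinj i).injOn ↔
      emb (π i, w) ∈ A i := by
    intro i w
    rw [Finset.mem_preimage]
  refine ⟨π, fun i => (A i).preimage (fun w => emb (π i, w)) (hinj i).injOn, ?_, ?_⟩
  · intro i
    ext x
    rw [Finset.mem_image]
    constructor
    · intro hx
      obtain ⟨w, hw⟩ := key i x hx
      refine ⟨w, ?_, hw.symm⟩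
      rw [Finset.mem_preimage, ← hw]
      exact hx
    · rintro ⟨w, hw, rfl⟩
      exact (hmem i w).mp hw
  · intro b hb
    obtain ⟨v, hvE, hv⟩ := h (fun i => emb (π i, b i)) (fun i => (hmem i (b i)).mp (hb i))
    obtain ⟨σ, hσ⟩ := copy_classes_one emb _ v hv
    have hvb : (fun j => b (π.symm j)) = v := by
      funext j
      have h1 := emb.injective (hσ (π.symm j))
      have h2 : π (π.symm j) = σ (π.symm j) := congrArg Prod.fst h1
      have h3 : b (π.symm j) = v (σ (π.symm j)) := congrArg Prod.snd h1
      rw [Equiv.apply_symm_apply] at h2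
      rw [h3, ← h2]
    rw [hvb]
    exact hvE

end Pool.Agent.H248.HG
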