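import Mathlib

/-!
# Complete multipartite hypergraphs

A copy of the complete `(r + 1)`-partite `(r + 1)`-graph with classes of sizes `d 0, …, d r`.
-/

set_option autoImplicit false

namespace Pool.Agent.H248.HG

/-- `H` contains a copy of the complete `(r + 1)`-partite `(r + 1)`-graph with classes of sizes `d i` -/
def HasCopy {n r : ℕ} (H : Finset (Finset (Fin n))) (d : Fin (r + 1) → ℕ) : Prop :=
  ∃ A : Fin (r + 1) → Finset (Fin n), (∀ i, (A i).card = d i) ∧
    (∀ i j, i ≠ j → Disjoint (A i) (A j)) ∧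
    ∀ a : Fin (r + 1) → Fin n, (∀ i, a i ∈ A i) → Finset.univ.image a ∈ H

end Pool.Agent.H248.HG
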