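import Pool.Agent.H248.HG.Norm

/-!
# The norm form in `r + 1` variables
-/

set_option autoImplicit false

namespace Pool.Agent.H248.HG

open Polynomial

theorem exists_form (K : Type) [Field K] [Fintype K] [DecidableEq K] (r : ℕ) (hr : 1 ≤ r) :
    ∃ (f : (Fin (r + 1) → K) → K) (P : Fin (r + 1) → (Fin (r + 1) → K) → K[X])
      (c : Fin (r + 1) → (Fin (r + 1) → K) → Fin r) (u : Fin (r + 1) → K),
      (Finset.univ.filter fun x : Fin (r + 1) → K => f x = 0).card ≤ Fintype.card K ^ r ∧
      (∀ i, u i ≠ 0) ∧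
      (∀ i x, (P i x).Monic ∧ (P i x).natDegree = r) ∧
      (∀ i x, f x = u i * (P i x).eval (x i)) ∧
      (∀ i x x', (∀ j, j ≠ i → x j = x' j) → P i x = P i x' ∧ c i x = c i x') ∧
      (∀ i x x', c i x = c i x' → (∃ j, j ≠ i ∧ x j ≠ x' j) → IsCoprime (P i x) (P i x')) := by

  classical
  obtain ⟨p, hp⟩ := CharP.exists K
  have : Fact p.Prime := ⟨CharP.char_is_prime K p⟩
  have : NeZero r := ⟨by omega⟩
  let L := FiniteField.Extension K p r
  have hfr : Module.finrank K L = r := FiniteField.finrank_extension K p r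
  have : FiniteDimensional K L := inferInstance
  have : Finite L := inferInstance
  obtain ⟨Pn, hPn, hPe, cn, hcn⟩ := exists_normPoly K L r hfr
  obtain ⟨b⟩ : Nonempty (Module.Basis (Fin r) K L) := ⟨Module.finBasisOfFinrankEq K L hfr⟩
  let ω : Fin (r + 1) → L := Fin.snoc (α := fun _ => L) (fun j => b j) (∑ j, b j)
  have hωc : ∀ j : Fin r, ω j.castSucc = b j := fun j => Fin.snoc_castSucc (α := fun _ => L) _ _ j
  have hωl : ω (Fin.last r) = ∑ j, b j := Fin.snoc_last (α := fun _ => L) _ _
  have hS : ∀ x : Fin (r + 1) → K, ∑ j, x j • ω j = ∑ j : Fin r, (x j.castSucc + x (Fin.last r)) • b j := by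
    intro x
    rw [Fin.sum_univ_castSucc, hωl, Finset.smul_sum, ← Finset.sum_add_distrib]
    refine Finset.sum_congr rfl fun j _ => ?_
    rw [hωc, add_smul]
  have hS0 : ∀ x : Fin (r + 1) → K, ∑ j, x j • ω j = 0 → ∀ j : Fin r, x j.castSucc + x (Fin.last r) = 0 := by
    intro x hx
    rw [hS] at hx
    exact Fintype.linearIndependent_iff.1 b.linearIndependent _ hx
  have hA : ∀ y : Fin (r + 1) → K, ∑ j, y j • ω j = 0 → ∀ i, y i = 0 → ∀ j, y j = 0 := by
    intro y hy i hi
    have h1 := hS0 y hy
    have hl : y (Fin.last r) = 0 := by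
      induction i using Fin.lastCases with
      | last => exact hi
      | cast i => have := h1 i; rw [hi, zero_add] at this; exact this
    intro j
    induction j using Fin.lastCases with
    | last => exact hl
    | cast j => have := h1 j; rw [hl, add_zero] at this; exact this
  have hω : ∀ i, ω i ≠ 0 := by
    intro i hi
    obtain ⟨i', hi'⟩ : ∃ i' : Fin (r + 1), i' ≠ i := by
      have : Nontrivial (Fin (r + 1)) := Fin.nontrivial_iff_two_le.2 (by omega)
      exact exists_ne i
    have h1 : ∑ j, (Pi.single i (1 : K) : Fin (r + 1) → K) j • ω j = 0 := by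
      rw [Finset.sum_eq_single i]
      · simp [hi]
      · intro j _ hj; simp [Pi.single_eq_of_ne hj]
      · simp
    have h2 := hA _ h1 i' (Pi.single_eq_of_ne hi' _) i
    simp at h2
  have hsplit : ∀ i (x : Fin (r + 1) → K),
      ∑ j, x j • ω j = ω i * (algebraMap K L (x i) + (ω i)⁻¹ * ∑ j ∈ Finset.univ.erase i, x j • ω j) := by
    intro i x
    rw [mul_add, ← mul_assoc, mul_inv_cancel₀ (hω i), one_mul, mul_comm (ω i), ← Algebra.smul_def]
    exact (Finset.add_sum_erase Finset.univ (fun j => x j • ω j) (Finset.mem_univ i)).symm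
  refine ⟨fun x => Algebra.norm K (∑ j, x j • ω j),
    fun i x => Pn ((ω i)⁻¹ * ∑ j ∈ Finset.univ.erase i, x j • ω j),
    fun i x => cn ((ω i)⁻¹ * ∑ j ∈ Finset.univ.erase i, x j • ω j),
    fun i => Algebra.norm K (ω i), ?_, ?_, ?_, ?_, ?_, ?_⟩
  · have h1 : (Finset.univ.filter fun x : Fin (r + 1) → K => Algebra.norm K (∑ j, x j • ω j) = 0).card
        ≤ (Finset.univ : Finset (Fin r → K)).card := by
      refine Finset.card_le_card_of_injOn (fun x j => x j.castSucc) (fun _ _ => by simp) ?_
      intro x hx x' hx' hxx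
      have hx0 : ∑ j, x j • ω j = 0 := by
        have : Algebra.norm K (∑ j, x j • ω j) = 0 := by simpa using hx
        exact Algebra.norm_eq_zero_iff.1 this
      have hx0' : ∑ j, x' j • ω j = 0 := by
        have : Algebra.norm K (∑ j, x' j • ω j) = 0 := by simpa using hx'
        exact Algebra.norm_eq_zero_iff.1 this
      have hc : ∀ j : Fin r, x j.castSucc = x' j.castSucc := fun j => congrFun hxx j
      have hl : x (Fin.last r) = x' (Fin.last r) := by
        have e1 := hS0 x hx0 ⟨0, by omega⟩
        have e2 := hS0 x' hx0' ⟨0, by omega⟩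
        rw [hc, ← e2] at e1
        exact add_left_cancel e1
      funext j
      induction j using Fin.lastCases with
      | last => exact hl
      | cast j => exact hc j
    refine h1.trans ?_
    simp
  · intro i h
    exact hω i (Algebra.norm_eq_zero_iff.1 h)
  · intro i x
    exact hPn _
  · intro i x
    show Algebra.norm K (∑ j, x j • ω j) = _
    rw [hsplit i x, map_mul, hPe]
  · intro i x x' h
    have : ∑ j ∈ Finset.univ.erase i, x j • ω j = ∑ j ∈ Finset.univ.erase i, x' j • ω j :=
      Finset.sum_congr rfl fun j hj => by rw [h j (Finset.ne_of_mem_erase hj)]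
    show Pn _ = Pn _ ∧ cn _ = cn _
    rw [this]
    exact ⟨rfl, rfl⟩
  · rintro i x x' hc ⟨j, hji, hj⟩
    refine hcn _ _ hc ?_
    intro he
    have h1 : ∑ j ∈ Finset.univ.erase i, x j • ω j = ∑ j ∈ Finset.univ.erase i, x' j • ω j :=
      mul_left_cancel₀ (inv_ne_zero (hω i)) he
    have h2 : ∑ j, (fun j => if j = i then (0 : K) else x j - x' j) j • ω j = 0 := by
      rw [← Finset.add_sum_erase _ _ (Finset.mem_univ i)]
      have h3 : ∑ j ∈ Finset.univ.erase i, (fun j => if j = i then (0 : K) else x j - x' j) j • ω j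
          = ∑ j ∈ Finset.univ.erase i, (x j • ω j - x' j • ω j) := by
        refine Finset.sum_congr rfl fun j hj => ?_
        simp only [if_neg (Finset.ne_of_mem_erase hj), sub_smul]
      rw [h3, Finset.sum_sub_distrib, h1, sub_self, add_zero]
      simp
    have h4 := hA _ h2 i (by simp) j
    simp only [if_neg hji] at h4
    exact hj (sub_eq_zero.1 h4)

end Pool.Agent.H248.HG
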