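import Pool.Agent.H248.ZP.Graph
import Pool.Agent.H248.HG.Form

/-!
# The norm hypergraph

Vertices of each of the `r + 1` classes: pairs `(x, e)`, `x` in a field `K` with `q ^ m` elements,
`e ≤ B = ⌊(q - 1) / h⌋`. Edges: `N (f (x_0, …, x_r)) = g ^ (h (e_0 + … + e_r) + w)` for some `w < h`, where
`f` is the norm of a linear form in `r + 1` variables with coefficients in the extension of `K` of degree
`r`, and the colours of all the vectors `(x_j)_{j ≠ i}` are prescribed.
-/

set_option autoImplicit false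

namespace Pool.Agent.H248.HG

open Finset Polynomial Pool.Agent.W834.NG Pool.Agent.Y684.ZL Pool.Agent.H248.ZP

/-- the weight of a vector -/
def sm {r Q : ℕ} {K : Type} (v : Fin (r + 1) → K × Fin Q) : ℕ := ∑ i, ((v i).2 : ℕ)

theorem sm_update {r Q : ℕ} {K : Type} (v : Fin (r + 1) → K × Fin Q) (i : Fin (r + 1))
    (z : K × Fin Q) :
    sm (Function.update v i z) = (z.2 : ℕ) + ∑ j ∈ univ.erase i, ((v j).2 : ℕ) := by
  classical
  unfold sm
  rw [← Finset.add_sum_erase _ _ (Finset.mem_univ i), Function.update_self]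
  congr 1
  refine Finset.sum_congr rfl fun j hj => ?_
  rw [Function.update_of_ne (Finset.ne_of_mem_erase hj)]

/-- the number of points with prescribed windows -/
theorem common_le2 {K : Type} [Field K] {r : ℕ} (hr : 1 ≤ r) (k : ℕ) (hk : 1 ≤ k) (h : ℕ)
    (hh : 1 ≤ h) (φ : K →+* K) (g : K) (D : K) (hD : D ≠ 0)
    (f : Fin (r + 1) → K[X]) (hm : ∀ i, (f i).Monic) (hd : ∀ i, (f i).natDegree = k)
    (hc : ∀ i j, i ≠ j → IsCoprime (f i) (f j)) (e' : Fin (r + 1) → ℕ) {B : ℕ}
    (P : Finset (K × Fin B)) (hinj : Set.InjOn Prod.fst (P : Set (K × Fin B)))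
    (hP : ∀ p ∈ P, ∀ i, ∃ w < h, D * Nm φ r ((f i).eval p.1) = g ^ (h * (p.2 + e' i) + w)) :
    P.card ≤ (r.factorial * k ^ r) * (h ^ (r + 1) - (h - 1) ^ (r + 1)) := by
  classical
  choose w hw hN using fun (p : P) (i : Fin (r + 1)) => hP p.1 p.2 i
  have hmin : ∀ p, ∃ μ : ℕ, (∀ i, μ ≤ w p i) ∧ ∃ i, w p i = μ := by
    intro p
    obtain ⟨i, -, hi⟩ := Finset.exists_min_image Finset.univ (fun i => w p i) ⟨0, Finset.mem_univ _⟩
    exact ⟨w p i, fun k => hi k (Finset.mem_univ _), i, rfl⟩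
  choose μ hμ1 hμ2 using hmin
  let F : P → (Fin (r + 1) → ℕ) := fun p i => w p i - μ p
  have hFW : ∀ p, F p ∈ WW r h := by
    intro p
    refine mem_WW (fun i => lt_of_le_of_lt (Nat.sub_le _ _) (hw p i)) ?_
    obtain ⟨i, hi⟩ := hμ2 p
    exact ⟨i, by show w p i - μ p = 0; omega⟩
  have hfst : Function.Injective fun p : P => (p : K × Fin B).1 := by
    intro p p' hpp
    exact Subtype.ext (hinj p.2 p'.2 hpp)
  have hfib : ∀ v ∈ (Finset.univ : Finset P).image F,
      ((Finset.univ : Finset P).filter (fun p => F p = v)).card ≤ r.factorial * k ^ r := by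
    intro v _
    set J := (Finset.univ : Finset P).filter (fun p => F p = v) with hJ
    let b : K → K := fun s => if hs : ∃ p : P, (p : K × Fin B).1 = s then
      g ^ (h * ((hs.choose : K × Fin B).2 : ℕ) + μ hs.choose) else 0
    have hb : ∀ p : P, b (p : K × Fin B).1 = g ^ (h * ((p : K × Fin B).2 : ℕ) + μ p) := by
      intro p
      have hs : ∃ p' : P, (p' : K × Fin B).1 = (p : K × Fin B).1 := ⟨p, rfl⟩
      have hcc : hs.choose = p := hfst hs.choose_spec
      simp only [b]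
      rw [dif_pos hs, hcc]
    have := sol_bound hr k hk φ f hm hd hc (fun i => D⁻¹ * g ^ (h * e' i + v i)) b
      (J.image fun p : P => (p : K × Fin B).1) (by
        intro s hs i
        obtain ⟨p, hp, rfl⟩ := Finset.mem_image.1 hs
        have hpv : F p = v := (Finset.mem_filter.1 hp).2
        have h1 : D * ∏ j : Fin r, φ^[(j : ℕ)] ((f i).eval (p : K × Fin B).1) = _ := hN p i
        have h2 : v i + μ p = w p i := by
          rw [← hpv]
          show w p i - μ p + μ p = _
          have := hμ1 p i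
          omega
        have h3 : ∏ j : Fin r, φ^[(j : ℕ)] ((f i).eval (p : K × Fin B).1) =
            D⁻¹ * (D * ∏ j : Fin r, φ^[(j : ℕ)] ((f i).eval (p : K × Fin B).1)) := by
          rw [← mul_assoc, inv_mul_cancel₀ hD, one_mul]
        rw [h3, hb, h1, mul_assoc, ← pow_add, ← h2]
        congr 2
        ring)
    rwa [Finset.card_image_of_injective _ hfst] at this
  have h1 := Finset.card_le_mul_card_image (Finset.univ : Finset P) (r.factorial * k ^ r) hfib
  have h2 : ((Finset.univ : Finset P).image F).card ≤ (WW r h).card :=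
    Finset.card_le_card (Finset.image_subset_iff.2 fun j _ => hFW j)
  rw [WW_card r h hh] at h2
  rw [Finset.card_univ, Fintype.card_coe] at h1
  exact h1.trans (Nat.mul_le_mul_left _ h2)

/-- the condition on the exponents and the norm -/
def Wn {K : Type} [Field K] {r : ℕ} (m h Q B : ℕ) (φ : K →+* K) (g : K)
    (f : (Fin (r + 1) → K) → K) (v : Fin (r + 1) → K × Fin (B + 1)) : Prop :=
  (∀ j : Fin r, ((v j.castSucc).2 : ℕ) < B) ∧ ∃ w < h, h * ((v (Fin.last r)).2 : ℕ) + w < Q ∧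
    Nm φ m (f fun i => (v i).1) = g ^ (h * sm v + w)

/-- the box lemma -/
theorem box {K : Type} [Field K] [Fintype K] [DecidableEq K] {r m h Q B : ℕ} (hr : 1 ≤ r)
    (hm : 1 ≤ m) (hh : 1 ≤ h) (hB : h * B ≤ Q)
    (φ : K →+* K) (g : K) (hg : ∀ u v : ℕ, u < v → v < u + Q → g ^ u ≠ g ^ v)
    (f : (Fin (r + 1) → K) → K) (P : Fin (r + 1) → (Fin (r + 1) → K) → K[X])
    (c : Fin (r + 1) → (Fin (r + 1) → K) → Fin r) (u : Fin (r + 1) → K)
    (hu : ∀ i, u i ≠ 0)
    (hP : ∀ i x, (P i x).Monic ∧ (P i x).natDegree = r)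
    (hf : ∀ i x, f x = u i * (P i x).eval (x i))
    (hPc : ∀ i x x', (∀ j, j ≠ i → x j = x' j) → P i x = P i x' ∧ c i x = c i x')
    (hco : ∀ i x x', c i x = c i x' → (∃ j, j ≠ i ∧ x j ≠ x' j) → IsCoprime (P i x) (P i x'))
    (κ : Fin (r + 1) → Fin r) (E : Finset (Fin (r + 1) → K × Fin (B + 1)))
    (hE : ∀ v ∈ E, Wn m h Q B φ g f v ∧ ∀ i, c i (fun j => (v j).1) = κ i)
    (i₀ : Fin (r + 1)) (A : Fin (r + 1) → Finset (K × Fin (B + 1)))
    (hA : ∀ b : Fin (r + 1) → K × Fin (B + 1), (∀ i, b i ∈ A i) → b ∈ E)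
    (hc : ∏ i ∈ univ.erase i₀, (A i).card = m + 1) :
    (A i₀).card ≤ (m.factorial * r ^ m) * (h ^ (m + 1) - (h - 1) ^ (m + 1)) := by
  classical
  rcases Finset.eq_empty_or_nonempty (A i₀) with h0 | h0
  · rw [h0, Finset.card_empty]; exact Nat.zero_le _
  have hne : ∀ i, (A i).Nonempty := by
    intro i
    by_cases hi : i = i₀
    · rw [hi]; exact h0
    · rw [← Finset.card_pos, Nat.pos_iff_ne_zero]
      intro h1
      have h2 : ∏ i ∈ univ.erase i₀, (A i).card = 0 :=
        Finset.prod_eq_zero (Finset.mem_erase.2 ⟨hi, Finset.mem_univ _⟩) h1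
      omega
  choose b₀ hb₀ using hne
  have hupd : ∀ (b : Fin (r + 1) → K × Fin (B + 1)) (j : Fin (r + 1)) (z : K × Fin (B + 1)),
      (∀ i, i ≠ j → b i ∈ A i) → z ∈ A j → Function.update b j z ∈ E := by
    intro b j z hb hz
    refine hA _ fun i => ?_
    by_cases hi : i = j
    · subst hi; rw [Function.update_self]; exact hz
    · rw [Function.update_of_ne hi]; exact hb i hi
  -- `h z + w < Q` for the exponent `z` of the changed coordinate
  have hrange : ∀ (j : Fin (r + 1)) (z : K × Fin (B + 1)), z ∈ A j → ∃ w < h,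
      h * (z.2 : ℕ) + w < Q ∧ Nm φ m (f fun i => (Function.update b₀ j z i).1) =
        g ^ (h * sm (Function.update b₀ j z) + w) := by
    intro j z hz
    obtain ⟨hlt, w, hw, hwQ, hN⟩ := (hE _ (hupd b₀ j z (fun i _ => hb₀ i) hz)).1
    refine ⟨w, hw, ?_, hN⟩
    revert hlt hwQ
    refine Fin.lastCases ?_ (fun j' => ?_) j
    · intro _ hwQ
      rwa [Function.update_self] at hwQ
    · intro hlt _
      have h1 := hlt j'
      rw [Function.update_self] at h1
      have h2 : h * ((z.2 : ℕ) + 1) ≤ h * B := Nat.mul_le_mul_left _ h1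
      rw [mul_add, mul_one] at h2
      omega
  -- the first coordinates of the elements of a class are different
  have hinj : ∀ j, ∀ z ∈ A j, ∀ z' ∈ A j, z.1 = z'.1 → z = z' := by
    intro j z hz z' hz' h1
    obtain ⟨w, hw, hwQ, h2⟩ := hrange j z hz
    obtain ⟨w', hw', hwQ', h3⟩ := hrange j z' hz'
    have h4 : (fun i => (Function.update b₀ j z i).1) = fun i => (Function.update b₀ j z' i).1 := by
      funext i
      by_cases hi : i = j
      · subst hi; rw [Function.update_self, Function.update_self]; exact h1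
      · rw [Function.update_of_ne hi, Function.update_of_ne hi]
    rw [h4, h3, sm_update, sm_update, mul_add, mul_add] at h2
    rcases lt_trichotomy (z.2 : ℕ) (z'.2 : ℕ) with hlt | heq | hgt
    · have h5 : h * ((z.2 : ℕ) + 1) ≤ h * (z'.2 : ℕ) := Nat.mul_le_mul_left _ hlt
      rw [mul_add, mul_one] at h5
      exact absurd h2.symm (hg _ _ (by omega) (by omega))
    · exact Prod.ext h1 (Fin.ext heq)
    · have h5 : h * ((z'.2 : ℕ) + 1) ≤ h * (z.2 : ℕ) := Nat.mul_le_mul_left _ hgt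
      rw [mul_add, mul_one] at h5
      exact absurd h2 (hg _ _ (by omega) (by omega))
  set T : Finset (Fin (r + 1) → K × Fin (B + 1)) :=
    Fintype.piFinset fun i => if i = i₀ then {b₀ i₀} else A i with hT
  have hTmem : ∀ b ∈ T, b i₀ = b₀ i₀ ∧ ∀ i, i ≠ i₀ → b i ∈ A i := by
    intro b hb
    rw [hT, Fintype.mem_piFinset] at hb
    refine ⟨?_, fun i hi => ?_⟩
    · have := hb i₀
      rw [if_pos rfl, Finset.mem_singleton] at this
      exact this
    · have := hb i
      rw [if_neg hi] at this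
      exact this
  have hTc : T.card = m + 1 := by
    rw [hT, Fintype.card_piFinset, ← Finset.mul_prod_erase _ _ (Finset.mem_univ i₀), if_pos rfl,
      Finset.card_singleton, one_mul, ← hc]
    refine Finset.prod_congr rfl fun i hi => ?_
    rw [if_neg (Finset.ne_of_mem_erase hi)]
  let en : Fin (m + 1) ≃ T := (Finset.equivFinOfCardEq hTc).symm
  have hTE : ∀ b ∈ T, b ∈ E := by
    intro b hb
    refine hA b fun i => ?_
    by_cases hi : i = i₀
    · rw [hi, (hTmem b hb).1]; exact hb₀ i₀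
    · exact (hTmem b hb).2 i hi
  have hmul : ∀ x y : K, Nm φ m (x * y) = Nm φ m x * Nm φ m y := by
    intro x y
    unfold Nm
    rw [← Finset.prod_mul_distrib]
    refine Finset.prod_congr rfl fun j _ => ?_
    exact iterate_map_mul φ _ _ _
  have hNu : Nm φ m (u i₀) ≠ 0 := by
    unfold Nm
    rw [Finset.prod_ne_zero_iff]
    intro j _
    rw [← RingHom.coe_pow]
    exact (_root_.map_ne_zero _).2 (hu i₀)
  refine common_le2 hm r hr h hh φ g (Nm φ m (u i₀)) hNu
    (fun i => P i₀ fun j => ((en i : Fin (r + 1) → K × Fin (B + 1)) j).1)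
    (fun i => (hP _ _).1) (fun i => (hP _ _).2) (fun i j hij => ?_)
    (fun i => ∑ j ∈ univ.erase i₀, (((en i : Fin (r + 1) → K × Fin (B + 1)) j).2 : ℕ))
    (A i₀) (fun z hz z' hz' h1 => hinj i₀ z hz z' hz' h1) ?_
  · refine hco i₀ _ _ ?_ ?_
    · rw [(hE _ (hTE _ (en i).2)).2 i₀, (hE _ (hTE _ (en j).2)).2 i₀]
    · by_contra hcon
      push Not at hcon
      apply hij
      apply en.injective
      apply Subtype.ext
      funext j'
      by_cases hj : j' = i₀
      · rw [hj, (hTmem _ (en i).2).1, (hTmem _ (en j).2).1]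
      · exact hinj j' _ ((hTmem _ (en i).2).2 j' hj) _ ((hTmem _ (en j).2).2 j' hj) (hcon j' hj)
  · intro z hz i
    obtain ⟨-, w, hw, -, h1⟩ := (hE _ (hupd (en i) i₀ z (hTmem _ (en i).2).2 hz)).1
    rw [hf i₀, hmul, sm_update] at h1
    have h2 : (P i₀ fun j => (Function.update (en i : Fin (r + 1) → K × Fin (B + 1)) i₀ z j).1) =
        P i₀ fun j => ((en i : Fin (r + 1) → K × Fin (B + 1)) j).1 := by
      refine (hPc i₀ _ _ fun j hj => ?_).1
      rw [Function.update_of_ne hj]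
    rw [h2, Function.update_self] at h1
    exact ⟨w, hw, h1⟩

open Classical in
/-- many transversals have a norm in the prescribed window -/
theorem count_E {K : Type} [Field K] [Fintype K] [DecidableEq K] {r m l h : ℕ} (hm : 1 ≤ m)
    (hl : 2 ≤ l) (hh : 1 ≤ h) (φ : K →+* K) (g : K) (R : ℕ) (hcard : Fintype.card K = 2 ^ (m * l))
    (hR : R * (2 ^ l - 1) + 1 = 2 ^ (m * l))
    (hg : ∀ u v : ℕ, u < v → v < u + (2 ^ l - 1) → g ^ u ≠ g ^ v)
    (hN : ∀ i : ℕ, R ≤ (Finset.univ.filter fun z : K => Nm φ m z = g ^ i).card)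
    (f : (Fin (r + 1) → K) → K)
    (hf : (Finset.univ.filter fun x : Fin (r + 1) → K => f x = 0).card ≤ Fintype.card K ^ r) :
    (2 ^ (m * l)) ^ (r + 1) * ((2 ^ l - 1) / h) ^ r ≤
      2 * (Finset.univ.filter fun v : Fin (r + 1) → K × Fin ((2 ^ l - 1) / h + 1) =>
        Wn m h (2 ^ l - 1) ((2 ^ l - 1) / h) φ g f v).card := by
  set Q := 2 ^ l - 1 with hQ
  set B := Q / h with hB
  set Z := Finset.univ.filter fun x : Fin (r + 1) → K => f x ≠ 0 with hZ
  have h1 : Fintype.card K ^ (r + 1) ≤ 2 * Z.card := by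
    have h2 : (Finset.univ.filter fun x : Fin (r + 1) → K => f x = 0).card + Z.card =
        Fintype.card K ^ (r + 1) := by
      rw [hZ, Finset.card_filter_add_card_filter_not, Finset.card_univ, Fintype.card_fun,
        Fintype.card_fin]
    have h3 : 2 * Fintype.card K ^ r ≤ Fintype.card K ^ (r + 1) := by
      rw [pow_succ, mul_comm]
      exact Nat.mul_le_mul_left _ (Fintype.one_lt_card)
    omega
  choose! uu huu1 huu2 using fun (y : K) (hy : y ≠ 0) (o : ℕ) =>
    cover φ g R m l hm hl hcard hR hg hN y hy o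
  have hQB : Q < h * (B + 1) := Nat.lt_mul_div_succ Q (by omega)
  let F : (Fin (r + 1) → K) × (Fin r → Fin B) → (Fin (r + 1) → K × Fin (B + 1)) := fun p i =>
    (p.1 i, (Fin.snoc (α := fun _ => Fin (B + 1)) (fun j => (p.2 j).castSucc)
      (⟨(uu (f p.1) (h * ∑ j, (p.2 j : ℕ)) / h) % (B + 1), Nat.mod_lt _ (Nat.succ_pos _)⟩ : Fin (B + 1)) :
        Fin (r + 1) → Fin (B + 1)) i)
  have hF : ∀ p ∈ Z ×ˢ (Finset.univ : Finset (Fin r → Fin B)), F p ∈
      Finset.univ.filter fun v : Fin (r + 1) → K × Fin (B + 1) => Wn m h Q B φ g f v := by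
    rintro ⟨x, e⟩ hp
    rw [Finset.mem_product] at hp
    have hx : f x ≠ 0 := (Finset.mem_filter.1 hp.1).2
    rw [Finset.mem_filter]
    refine ⟨Finset.mem_univ _, ?_⟩
    obtain ⟨U, hU⟩ : ∃ U, U = uu (f x) (h * ∑ j, (e j : ℕ)) := ⟨_, rfl⟩
    have hUQ : U < Q := by rw [hU]; exact huu1 _ hx _
    have hUN : Nm φ m (f x) = g ^ (h * ∑ j, (e j : ℕ) + U) := by rw [hU]; exact huu2 _ hx _
    have hUB : U / h < B + 1 := by
      rw [Nat.div_lt_iff_lt_mul (by omega), mul_comm]
      omega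
    have hlast : ((F (x, e) (Fin.last r)).2 : ℕ) = U / h := by
      show ((Fin.snoc (α := fun _ => Fin (B + 1)) _ _ : Fin (r + 1) → Fin (B + 1)) (Fin.last r) : ℕ) = _
      rw [Fin.snoc_last, hU]
      rw [hU] at hUB
      exact Nat.mod_eq_of_lt hUB
    have hcs : ∀ j : Fin r, ((F (x, e) j.castSucc).2 : ℕ) = e j := by
      intro j
      show ((Fin.snoc (α := fun _ => Fin (B + 1)) _ _ : Fin (r + 1) → Fin (B + 1)) j.castSucc : ℕ) = _
      rw [Fin.snoc_castSucc]
      rfl
    have h2 : sm (F (x, e)) = ∑ j, (e j : ℕ) + U / h := by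
      unfold sm
      rw [Fin.sum_univ_castSucc, hlast]
      congr 1
      exact Finset.sum_congr rfl fun j _ => hcs j
    refine ⟨fun j => ?_, U % h, Nat.mod_lt _ (by omega), ?_, ?_⟩
    · rw [hcs j]; exact (e j).2
    · rw [hlast, Nat.div_add_mod]
      exact hUQ
    · show Nm φ m (f x) = _
      rw [h2, hUN, mul_add]
      congr 1
      have := Nat.div_add_mod U h
      omega
  have hFi : Set.InjOn F (Z ×ˢ (Finset.univ : Finset (Fin r → Fin B)) : Finset _) := by
    rintro ⟨x, e⟩ - ⟨x', e'⟩ - h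
    have h2 : x = x' := by
      funext i
      exact congrArg (fun v : Fin (r + 1) → K × Fin (B + 1) => (v i).1) h
    refine Prod.ext h2 ?_
    funext j
    have h3 := congrArg (fun v : Fin (r + 1) → K × Fin (B + 1) => (v j.castSucc).2) h
    simp only [F, Fin.snoc_castSucc] at h3
    exact Fin.castSucc_injective _ h3
  have h4 := Finset.card_le_card_of_injOn F hF hFi
  rw [Finset.card_product, Finset.card_univ, Fintype.card_fun, Fintype.card_fin,
    Fintype.card_fin] at h4
  calc (2 ^ (m * l)) ^ (r + 1) * B ^ r = Fintype.card K ^ (r + 1) * B ^ r := by rw [hcard]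
    _ ≤ 2 * Z.card * B ^ r := Nat.mul_le_mul_right _ h1
    _ = 2 * (Z.card * B ^ r) := by ring
    _ ≤ _ := Nat.mul_le_mul_left _ h4

theorem exists_W (r m l h : ℕ) (hr : 1 ≤ r) (hm : 1 ≤ m) (hl : 2 ≤ l) (hh : 1 ≤ h) :
    ∃ (W : Type) (_ : Fintype W) (_ : DecidableEq W) (E : Finset (Fin (r + 1) → W)),
      Fintype.card W = 2 ^ (m * l) * ((2 ^ l - 1) / h + 1) ∧
      (2 ^ (m * l)) ^ (r + 1) * ((2 ^ l - 1) / h) ^ r ≤ 2 * r ^ (r + 1) * E.card ∧
      ∀ (i₀ : Fin (r + 1)) (A : Fin (r + 1) → Finset W),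
        (∀ b : Fin (r + 1) → W, (∀ i, b i ∈ A i) → b ∈ E) →
        ∏ i ∈ Finset.univ.erase i₀, (A i).card = m + 1 →
        (A i₀).card ≤ (m.factorial * r ^ m) * (h ^ (m + 1) - (h - 1) ^ (m + 1)) := by
  classical
  obtain ⟨K, _, _, _, φ, g, R, hcard, hR, hg, hN⟩ := exists_field m l hm (by omega)
  obtain ⟨f, P, c, u, hf0, hu, hP, hf, hPc, hco⟩ := exists_form K r hr
  have hcount := count_E (r := r) hm hl hh φ g R hcard hR hg hN f hf0
  set Q := 2 ^ l - 1 with hQ
  set B := Q / h with hB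
  set E₀ := Finset.univ.filter fun v : Fin (r + 1) → K × Fin (B + 1) =>
    Wn m h Q B φ g f v with hE₀
  let col : (Fin (r + 1) → K × Fin (B + 1)) → (Fin (r + 1) → Fin r) := fun v i => c i fun j => (v j).1
  have : Nonempty (Fin r) := ⟨⟨0, hr⟩⟩
  obtain ⟨κ, -, hκ⟩ := Finset.exists_max_image (Finset.univ : Finset (Fin (r + 1) → Fin r))
    (fun κ => (E₀.filter fun v => col v = κ).card) Finset.univ_nonempty
  have h1 : E₀.card ≤ r ^ (r + 1) * (E₀.filter fun v => col v = κ).card := by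
    have h2 := Finset.card_eq_sum_card_fiberwise (f := col) (s := E₀)
      (t := (Finset.univ : Finset (Fin (r + 1) → Fin r))) (fun _ _ => Finset.mem_coe.2 (Finset.mem_univ _))
    rw [h2]
    refine (Finset.sum_le_card_nsmul _ _ _ fun κ' _ => hκ κ' (Finset.mem_univ _)).trans ?_
    rw [Finset.card_univ, Fintype.card_fun, Fintype.card_fin, Fintype.card_fin, smul_eq_mul]
  refine ⟨K × Fin (B + 1), inferInstance, inferInstance, E₀.filter fun v => col v = κ, ?_, ?_, ?_⟩
  · rw [Fintype.card_prod, hcard, Fintype.card_fin]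
  · calc (2 ^ (m * l)) ^ (r + 1) * B ^ r ≤ 2 * E₀.card := hcount
      _ ≤ 2 * (r ^ (r + 1) * (E₀.filter fun v => col v = κ).card) := Nat.mul_le_mul_left _ h1
      _ = _ := by ring
  · intro i₀ A hA hc
    refine box hr hm hh (Nat.mul_div_le Q h) φ g hg f P c u hu hP hf hPc hco κ
      (E₀.filter fun v => col v = κ) ?_ i₀ A hA hc
    intro v hv
    rw [Finset.mem_filter] at hv
    exact ⟨(Finset.mem_filter.1 hv.1).2, fun i => congrFun hv.2 i⟩

end Pool.Agent.H248.HG
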