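import Pool.Agent.H248.ZP.Num

/-!
# The parameters, uniformly in `t`
-/

set_option autoImplicit false

namespace Pool.Agent.H248.HG

open Pool.Agent.H248.ZP

theorem num_unif_key (r m : ℕ) (hr : 1 ≤ r) (t n h l M A D : ℕ) (hh : 1 ≤ h)
    (hhl : h ≤ 2 ^ l - 1) (hA : t ≤ A * h ^ m) (hD : h * n ≤ D * (2 ^ l) ^ (m + 1))
    (hA1 : 1 ≤ A) (hD1 : 1 ≤ D)
    (hM : (2 ^ (m * l)) ^ (r + 1) * ((2 ^ l - 1) / h) ^ r ≤ 2 * r ^ (r + 1) * M) :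
    (1 / ((A : ℝ) * (D : ℝ) ^ (r * (m + 1) + m) * 4 ^ r * (2 * (r : ℝ) ^ (r + 1)))) *
      (t : ℝ) ^ (1 / ((m : ℝ) + 1)) * (n : ℝ) ^ ((r : ℝ) + 1 - 1 / ((m : ℝ) + 1)) ≤ M := by
  obtain ⟨E, hE⟩ : ∃ E : ℕ, E = r * (m + 1) + m := ⟨_, rfl⟩
  obtain ⟨q, hq⟩ : ∃ q : ℝ, q = 2 ^ l := ⟨_, rfl⟩
  obtain ⟨x, hx⟩ : ∃ x : ℝ, x = (t : ℝ) ^ (1 / ((m : ℝ) + 1)) *
    (n : ℝ) ^ ((r : ℝ) + 1 - 1 / ((m : ℝ) + 1)) := ⟨_, rfl⟩
  have hq0 : 0 < q := by rw [hq]; positivity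
  have hhR : (0 : ℝ) < h := by exact_mod_cast hh
  have hAR : (1 : ℝ) ≤ A := by exact_mod_cast hA1
  have hDR : (1 : ℝ) ≤ D := by exact_mod_cast hD1
  have hrR : (1 : ℝ) ≤ r := by exact_mod_cast hr
  have hm1 : ((m : ℝ) + 1) ≠ 0 := by positivity
  have hx0 : 0 ≤ x := by rw [hx]; positivity
  have hxp : x ^ (m + 1) = t * (n : ℝ) ^ E := by
    rw [hx, mul_pow, ← Real.rpow_natCast, ← Real.rpow_mul (Nat.cast_nonneg _),
      ← Real.rpow_natCast ((n : ℝ) ^ ((r : ℝ) + 1 - 1 / ((m : ℝ) + 1))),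
      ← Real.rpow_mul (Nat.cast_nonneg _), ← Real.rpow_natCast (n : ℝ) E]
    congr 1
    · push_cast
      rw [one_div, inv_mul_cancel₀ hm1, Real.rpow_one]
    · congr 1
      rw [hE]
      push_cast
      field_simp
      ring
  have b1 : (t : ℝ) ≤ A * (h : ℝ) ^ m := by exact_mod_cast hA
  have b2 : (n : ℝ) ≤ D * q ^ (m + 1) / h := by
    rw [le_div_iff₀ hhR, hq]
    have : ((h * n : ℕ) : ℝ) ≤ ((D * (2 ^ l) ^ (m + 1) : ℕ) : ℝ) := by exact_mod_cast hD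
    push_cast at this
    linarith
  have b3 : (t : ℝ) * (n : ℝ) ^ E ≤ A * (D : ℝ) ^ E * (q ^ E / (h : ℝ) ^ r) ^ (m + 1) := by
    calc (t : ℝ) * (n : ℝ) ^ E ≤ (A * (h : ℝ) ^ m) * (D * q ^ (m + 1) / h) ^ E :=
          mul_le_mul b1 (pow_le_pow_left₀ (Nat.cast_nonneg _) b2 E) (by positivity)
            (by positivity)
      _ = A * (D : ℝ) ^ E * ((q ^ (m + 1)) ^ E * ((h : ℝ) ^ m / (h : ℝ) ^ E)) := by
          rw [div_pow, mul_pow]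
          field_simp
      _ = A * (D : ℝ) ^ E * (q ^ E / (h : ℝ) ^ r) ^ (m + 1) := by
          congr 1
          rw [div_pow, ← pow_mul, ← pow_mul, ← pow_mul, mul_comm (m + 1) E, div_eq_mul_inv]
          congr 1
          have e1 : (h : ℝ) ^ E = (h : ℝ) ^ (r * (m + 1)) * (h : ℝ) ^ m := by
            rw [hE, pow_add]
          rw [e1]
          field_simp
  have hP0 : 0 ≤ q ^ E / (h : ℝ) ^ r := by positivity
  have b4 : x ≤ A * (D : ℝ) ^ E * (q ^ E / (h : ℝ) ^ r) := by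
    have hAD : 1 ≤ A * (D : ℝ) ^ E := by
      have := one_le_pow₀ hDR (n := E)
      nlinarith
    refine le_of_pow_le_pow_left₀ (Nat.succ_ne_zero m) (by positivity) ?_
    rw [hxp, mul_pow]
    refine b3.trans (mul_le_mul_of_nonneg_right ?_ (by positivity))
    exact le_self_pow₀ hAD (Nat.succ_ne_zero m)
  have b5 : q ≤ 4 * (((2 ^ l - 1) / h : ℕ) : ℝ) * h := by
    obtain ⟨a, ha⟩ : ∃ a : ℕ, a = (2 ^ l - 1) / h := ⟨_, rfl⟩
    rw [← ha, hq]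
    have h1 : 1 ≤ a := by
      rw [ha, Nat.le_div_iff_mul_le hh]
      omega
    have h2 : 2 ^ l - 1 < h * (a + 1) := by
      rw [ha]
      exact Nat.lt_mul_div_succ _ hh
    have h3 : 2 ^ l ≤ 4 * a * h := by
      have h4 : h * (a + 1) ≤ 2 * (a * h) := by nlinarith
      have h5 : 1 ≤ a * h := Nat.mul_pos h1 hh
      have h6 : 4 * a * h = 4 * (a * h) := by ring
      omega
    exact_mod_cast h3
  have b6 : q ^ E / (h : ℝ) ^ r ≤ 4 ^ r * (2 * (r : ℝ) ^ (r + 1)) * M := by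
    rw [div_le_iff₀ (by positivity)]
    have h1 : (((2 ^ (m * l)) ^ (r + 1) * ((2 ^ l - 1) / h) ^ r : ℕ) : ℝ) ≤
        ((2 * r ^ (r + 1) * M : ℕ) : ℝ) := by exact_mod_cast hM
    rw [Nat.cast_mul, Nat.cast_pow, Nat.cast_pow, Nat.cast_pow] at h1
    push_cast at h1
    have h2 : ((2 : ℝ) ^ (m * l)) = q ^ m := by rw [hq, ← pow_mul, mul_comm]
    rw [h2] at h1
    have h3 : q ^ E = (q ^ m) ^ (r + 1) * q ^ r := by
      rw [hE, ← pow_mul, ← pow_add]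
      congr 1
      ring
    rw [h3]
    calc (q ^ m) ^ (r + 1) * q ^ r ≤ (q ^ m) ^ (r + 1) *
          (4 * (((2 ^ l - 1) / h : ℕ) : ℝ) * h) ^ r :=
          mul_le_mul_of_nonneg_left (pow_le_pow_left₀ hq0.le b5 r) (by positivity)
      _ = 4 ^ r * ((q ^ m) ^ (r + 1) * (((2 ^ l - 1) / h : ℕ) : ℝ) ^ r) * (h : ℝ) ^ r := by
          rw [mul_pow, mul_pow]
          ring
      _ ≤ 4 ^ r * (2 * (r : ℝ) ^ (r + 1) * M) * (h : ℝ) ^ r := by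
          refine mul_le_mul_of_nonneg_right ?_ (by positivity)
          exact mul_le_mul_of_nonneg_left h1 (by positivity)
      _ = _ := by ring
  rw [mul_assoc, ← hx, ← hE, one_div, inv_mul_le_iff₀ (by positivity)]
  calc x ≤ A * (D : ℝ) ^ E * (q ^ E / (h : ℝ) ^ r) := b4
    _ ≤ A * (D : ℝ) ^ E * (4 ^ r * (2 * (r : ℝ) ^ (r + 1)) * M) :=
        mul_le_mul_of_nonneg_left b6 (by positivity)
    _ = _ := by ring

theorem num_unif (r m : ℕ) (hr : 1 ≤ r) (hm : 1 ≤ m) :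
    ∃ c : ℝ, 0 < c ∧ ∃ N : ℕ, ∀ t n : ℕ, m.factorial * r ^ m < t → N * t ≤ n →
      ∃ h l : ℕ, 1 ≤ h ∧ 2 ≤ l ∧
        (m.factorial * r ^ m) * (h ^ (m + 1) - (h - 1) ^ (m + 1)) < t ∧
        (r + 1) * (2 ^ (m * l) * ((2 ^ l - 1) / h + 1)) ≤ n ∧
        ∀ M : ℕ, (2 ^ (m * l)) ^ (r + 1) * ((2 ^ l - 1) / h) ^ r ≤ 2 * r ^ (r + 1) * M →
          c * (t : ℝ) ^ (1 / ((m : ℝ) + 1)) * (n : ℝ) ^ ((r : ℝ) + 1 - 1 / ((m : ℝ) + 1)) ≤ M := by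
  obtain ⟨A, hA⟩ : ∃ A : ℕ, A = m.factorial * r ^ m * (m + 1) * 2 ^ m := ⟨_, rfl⟩
  obtain ⟨D, hD⟩ : ∃ D : ℕ, D = 2 * (r + 1) * 2 ^ (m + 3) := ⟨_, rfl⟩
  obtain ⟨C₁, hC₁⟩ : ∃ C₁ : ℕ, C₁ = 2 ^ (m + 3) * (2 * r) ^ (m + 1) * (3 * 4 ^ m) := ⟨_, rfl⟩
  have hrpos : 0 < r := hr
  have hA1 : 1 ≤ A := by
    rw [hA]
    exact Nat.mul_pos (Nat.mul_pos (Nat.mul_pos m.factorial_pos (pow_pos hrpos _))
      (Nat.succ_pos _)) (pow_pos two_pos _)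
  have hD1 : 1 ≤ D := by
    rw [hD]
    exact Nat.succ_le_of_lt (by positivity)
  have hC1 : 1 ≤ C₁ := by
    rw [hC₁]
    have : 0 < 2 * r := by omega
    exact Nat.succ_le_of_lt (by positivity)
  have hAR : (0 : ℝ) < A := by exact_mod_cast hA1
  have hDR : (0 : ℝ) < D := by exact_mod_cast hD1
  have hrR : (0 : ℝ) < r := by exact_mod_cast hrpos
  refine ⟨1 / ((A : ℝ) * (D : ℝ) ^ (r * (m + 1) + m) * 4 ^ r * (2 * (r : ℝ) ^ (r + 1))),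
    by positivity, C₁ * (r + 1), ?_⟩
  intro t n ht hn
  have hn' : C₁ * t ≤ n / (r + 1) := by
    rw [Nat.le_div_iff_mul_le (Nat.succ_pos r)]
    calc C₁ * t * (r + 1) = C₁ * (r + 1) * t := by ring
      _ ≤ n := hn
  have ht1 : 1 ≤ t := by omega
  have hn1 : 1 ≤ n / (r + 1) := le_trans (Nat.mul_pos hC1 ht1) hn'
  obtain ⟨h, l, h1, h2, h3, -, h5, h6, h7, h8⟩ := exists_params m r t (n / (r + 1)) hm hr ht
    (by rw [← hC₁]; exact hn')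
  refine ⟨h, l, h1, h2, h5, ?_, ?_⟩
  · calc (r + 1) * (2 ^ (m * l) * ((2 ^ l - 1) / h + 1)) ≤ (r + 1) * (n / (r + 1)) :=
          Nat.mul_le_mul_left _ h8
      _ ≤ n := Nat.mul_div_le _ _
  · intro M hM
    refine num_unif_key r m hr t n h l M A D h1 h3 ?_ ?_ hA1 hD1 hM
    · rw [hA]
      exact h6
    · have h9 : n < (r + 1) * (n / (r + 1) + 1) := Nat.lt_mul_div_succ _ (Nat.succ_pos r)
      have h10 : n ≤ (r + 1) * (2 * (n / (r + 1))) :=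
        h9.le.trans (Nat.mul_le_mul_left _ (by omega))
      calc h * n ≤ h * ((r + 1) * (2 * (n / (r + 1)))) := Nat.mul_le_mul_left _ h10
        _ = 2 * (r + 1) * (h * (n / (r + 1))) := by ring
        _ ≤ 2 * (r + 1) * (2 ^ (m + 3) * (2 ^ l) ^ (m + 1)) := Nat.mul_le_mul_left _ h7
        _ = D * (2 ^ l) ^ (m + 1) := by rw [hD]; ring

end Pool.Agent.H248.HG
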