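import Mathlib

/-!
# Norm polynomials of an extension of finite fields
-/

set_option autoImplicit false

namespace Pool.Agent.H248.HG

open Polynomial

theorem exists_normPoly (K L : Type) [Field K] [Field L] [Algebra K L] [Finite L] (k : ℕ)
    (hk : Module.finrank K L = k) :
    ∃ P : L → K[X], (∀ w, (P w).Monic ∧ (P w).natDegree = k) ∧
      (∀ (w : L) (a : K), (P w).eval a = Algebra.norm K (algebraMap K L a + w)) ∧
      ∃ c : L → Fin k, ∀ w w', c w = c w' → w ≠ w' → IsCoprime (P w) (P w') := by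
  classical
  have hinj : Function.Injective (algebraMap K L) := (algebraMap K L).injective
  have hKfin : Finite K := Finite.of_injective _ hinj
  have hfd : FiniteDimensional K L := Module.Finite.of_finite
  have hgal : IsGalois K L := inferInstance
  have hcard : Fintype.card (L ≃ₐ[K] L) = k := by
    rw [← Nat.card_eq_fintype_card, IsGalois.card_aut_eq_finrank, hk]
  -- the product over the Galois group
  let Q : L → L[X] := fun w => ∏ σ : L ≃ₐ[K] L, (X + C (σ w))
  have hQmonic : ∀ w, (Q w).Monic := fun w => monic_prod_of_monic _ _ fun σ _ => monic_X_add_C _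
  have hQdeg : ∀ w, (Q w).natDegree = k := by
    intro w
    show (∏ σ : L ≃ₐ[K] L, (X + C (σ w))).natDegree = k
    rw [natDegree_prod_of_monic _ _ fun σ _ => monic_X_add_C _]
    simp only [natDegree_X_add_C, Finset.sum_const, Finset.card_univ, smul_eq_mul, mul_one]
    exact hcard
  have hQfix : ∀ w (τ : L ≃ₐ[K] L), (Q w).map (τ : L →+* L) = Q w := by
    intro w τ
    show (∏ σ : L ≃ₐ[K] L, (X + C (σ w))).map (τ : L →+* L) = ∏ σ : L ≃ₐ[K] L, (X + C (σ w))
    rw [Polynomial.map_prod]
    refine Fintype.prod_equiv (Equiv.mulLeft τ) _ _ ?_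
    intro σ
    simp
  have hlift : ∀ w, ∃ P : K[X], P.map (algebraMap K L) = Q w ∧ P.Monic ∧ P.natDegree = k := by
    intro w
    have h1 : Q w ∈ Polynomial.lifts (algebraMap K L) := by
      rw [Polynomial.lifts_iff_coeff_lifts]
      intro n
      have h2 : ∀ τ : L ≃ₐ[K] L, τ ((Q w).coeff n) = (Q w).coeff n := by
        intro τ
        have h3 := congrArg (fun p => Polynomial.coeff p n) (hQfix w τ)
        simp only [Polynomial.coeff_map] at h3
        exact h3
      have h4 : (Q w).coeff n ∈ (⊥ : IntermediateField K L) :=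
        (IsGalois.mem_bot_iff_fixed _).2 h2
      rw [IntermediateField.mem_bot] at h4
      exact h4
    obtain ⟨P, hP, hPdeg, hPm⟩ := Polynomial.lifts_and_natDegree_eq_and_monic h1 (hQmonic w)
    exact ⟨P, hP, hPm, by rw [hPdeg, hQdeg]⟩
  choose P hPmap hPmonic hPdeg using hlift
  refine ⟨P, fun w => ⟨hPmonic w, hPdeg w⟩, ?_, ?_⟩
  · intro w a
    apply hinj
    rw [Algebra.norm_eq_prod_automorphisms]
    have h1 : algebraMap K L ((P w).eval a) = ((P w).map (algebraMap K L)).eval (algebraMap K L a) := by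
      rw [eval_map_algebraMap, aeval_algebraMap_apply, coe_aeval_eq_eval]
    rw [h1, hPmap]
    show (∏ σ : L ≃ₐ[K] L, (X + C (σ w))).eval (algebraMap K L a) = _
    rw [eval_prod]
    refine Finset.prod_congr rfl fun σ _ => ?_
    rw [eval_add, eval_X, eval_C, map_add, AlgEquiv.commutes]
  · let e : (L ≃ₐ[K] L) ≃ Fin k := Fintype.equivFinOfCardEq hcard
    let q : L → L := fun w => (Quotient.mk (MulAction.orbitRel (L ≃ₐ[K] L) L) w).out
    have hq : ∀ w, ∃ σ : L ≃ₐ[K] L, σ (q w) = w := by
      intro w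
      have h1 : (MulAction.orbitRel (L ≃ₐ[K] L) L).r w (q w) := by
        have h2 := Quotient.mk_out (s := MulAction.orbitRel (L ≃ₐ[K] L) L) w
        exact Setoid.symm' _ h2
      obtain ⟨σ, hσ⟩ := MulAction.orbitRel_apply.1 h1
      exact ⟨σ, hσ⟩
    choose s hs using hq
    refine ⟨fun w => e (s w), fun w w' hc hne => ?_⟩
    have hs' : s w = s w' := e.injective hc
    have hno : ∀ σ τ : L ≃ₐ[K] L, σ w ≠ τ w' := by
      intro σ τ h
      apply hne
      have h1 : q w = q w' := by
        have h2 : (Quotient.mk (MulAction.orbitRel (L ≃ₐ[K] L) L) w) =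
            (Quotient.mk (MulAction.orbitRel (L ≃ₐ[K] L) L) w') := by
          apply Quotient.sound
          show (MulAction.orbitRel (L ≃ₐ[K] L) L).r w w'
          refine MulAction.orbitRel_apply.2 ⟨σ⁻¹ * τ, ?_⟩
          show (σ⁻¹ * τ) • w' = w
          have h3 : (σ⁻¹ * τ) • w' = σ.symm (τ w') := rfl
          rw [h3, ← h, AlgEquiv.symm_apply_apply]
        show (Quotient.mk (MulAction.orbitRel (L ≃ₐ[K] L) L) w).out =
          (Quotient.mk (MulAction.orbitRel (L ≃ₐ[K] L) L) w').out
        rw [h2]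
      rw [← hs w, ← hs w', hs', h1]
    rw [← Polynomial.isCoprime_map (algebraMap K L), hPmap, hPmap]
    show IsCoprime (∏ σ : L ≃ₐ[K] L, (X + C (σ w))) (∏ σ : L ≃ₐ[K] L, (X + C (σ w')))
    refine IsCoprime.prod_left fun σ _ => IsCoprime.prod_right fun τ _ => ?_
    have h4 : (X + C (σ w) : L[X]) = X - C (-(σ w)) := by rw [C_neg, sub_neg_eq_add]
    have h5 : (X + C (τ w') : L[X]) = X - C (-(τ w')) := by rw [C_neg, sub_neg_eq_add]
    rw [h4, h5]
    refine Polynomial.isCoprime_X_sub_C_of_isUnit_sub ?_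
    refine IsUnit.mk0 _ ?_
    intro h6
    apply hno σ τ
    have h7 := sub_eq_zero.1 h6
    exact neg_injective h7

end Pool.Agent.H248.HG
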