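import Mathlib

/-!
# The inequality of Sidorenko for complete multipartite hypergraphs
-/

set_option autoImplicit false

namespace Pool.Agent.H248.HG

private theorem t6_pm {ι : Type*} [Fintype ι] (f : ι → ℝ) (hf : ∀ i, 0 ≤ f i) (m : ℕ)
    (hm : 1 ≤ m) :
    (∑ i, f i) ^ m ≤ (Fintype.card ι : ℝ) ^ (m - 1) * ∑ i, f i ^ m := by
  obtain ⟨k, rfl⟩ : ∃ k, m = k + 1 := ⟨m - 1, by omega⟩
  rcases isEmpty_or_nonempty ι with h | h
  · simp
  · have h1 := pow_sum_div_card_le_sum_pow (s := (Finset.univ : Finset ι)) (f := f)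
      (fun i _ => hf i) k
    have hc : (0 : ℝ) < (Finset.univ : Finset ι).card := by
      exact_mod_cast Finset.card_pos.2 Finset.univ_nonempty
    rw [div_le_iff₀ (pow_pos hc k)] at h1
    rw [Nat.add_sub_cancel, mul_comm]
    simpa using h1

theorem sidorenko (V : Type) [Fintype V] [DecidableEq V] (r : ℕ) (σ : Fin r → ℕ) (hσ : ∀ i, 1 ≤ σ i)
    (g : (Fin r → V) → ℝ) (hg : ∀ y, 0 ≤ g y) :
    (∑ y, g y) ^ (∏ i, σ i) ≤ (Fintype.card V : ℝ) ^ (r * (∏ i, σ i) - ∑ i, σ i) *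
      ∑ x : (i : Fin r) → (Fin (σ i) → V), ∏ a : (i : Fin r) → Fin (σ i), g fun i => x i (a i) := by
  induction r with
  | zero =>
    simp only [Finset.univ_eq_empty, Finset.prod_empty, Finset.sum_empty, pow_one, zero_mul,
      Nat.sub_zero, pow_zero, one_mul]
    rw [Fintype.sum_unique, Fintype.sum_unique, Fintype.prod_unique]
    exact le_of_eq (congrArg g (Subsingleton.elim _ _))
  | succ r ih =>
    have hP : 1 ≤ ∏ i : Fin r, σ i.succ := Nat.one_le_iff_ne_zero.2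
      (Finset.prod_ne_zero_iff.2 fun i _ => by have := hσ i.succ; omega)
    have hS : ∑ i : Fin r, σ i.succ ≤ r * ∏ i : Fin r, σ i.succ := by
      calc ∑ i : Fin r, σ i.succ ≤ ∑ _i : Fin r, ∏ i : Fin r, σ i.succ :=
            Finset.sum_le_sum fun i _ => Nat.le_of_dvd (by omega)
              (Finset.dvd_prod_of_mem _ (Finset.mem_univ i))
        _ = r * ∏ i : Fin r, σ i.succ := by simp
    have hs := hσ 0
    rw [Fin.prod_univ_succ, Fin.sum_univ_succ]
    have e1 : ∑ y : Fin (r + 1) → V, g y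
        = ∑ y' : Fin r → V, ∑ v : V, g (Fin.cons v y') := by
      rw [← (Fin.consEquiv (fun _ => V)).sum_comp, Fintype.sum_prod_type_right]
      rfl
    have e2 : ∑ y' : Fin r → V, (∑ v : V, g (Fin.cons v y')) ^ σ 0
        = ∑ x0 : Fin (σ 0) → V, ∑ y' : Fin r → V, ∏ k, g (Fin.cons (x0 k) y') := by
      rw [Finset.sum_comm]
      refine Finset.sum_congr rfl fun y' _ => ?_
      rw [Fintype.sum_pow]
    have e3 : ∑ x : (i : Fin (r + 1)) → (Fin (σ i) → V), ∏ a : (i : Fin (r + 1)) → Fin (σ i),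
          g (fun i => x i (a i))
        = ∑ x0 : Fin (σ 0) → V, ∑ x' : (i : Fin r) → (Fin (σ i.succ) → V),
          ∏ a' : (i : Fin r) → Fin (σ i.succ), ∏ k, g (Fin.cons (x0 k) fun i => x' i (a' i)) := by
      rw [← (Fin.consEquiv (fun i => Fin (σ i) → V)).sum_comp, Fintype.sum_prod_type]
      refine Finset.sum_congr rfl fun x0 _ => Finset.sum_congr rfl fun x' _ => ?_
      rw [← (Fin.consEquiv (fun i => Fin (σ i))).prod_comp, Fintype.prod_prod_type_right]
      refine Finset.prod_congr rfl fun a' _ => Finset.prod_congr rfl fun k _ => ?_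
      congr 1
      funext i
      refine Fin.cases ?_ (fun j => ?_) i
      · rfl
      · rfl
    rw [e3, e1]
    have hgn : ∀ (x0 : Fin (σ 0) → V) (y' : Fin r → V), 0 ≤ ∏ k, g (Fin.cons (x0 k) y') :=
      fun x0 y' => Finset.prod_nonneg fun k _ => hg _
    have p1 := t6_pm (fun y' : Fin r → V => ∑ v : V, g (Fin.cons v y'))
      (fun y' => Finset.sum_nonneg fun v _ => hg _) (σ 0) hs
    rw [e2] at p1
    have p2 := t6_pm (fun x0 : Fin (σ 0) → V => ∑ y' : Fin r → V, ∏ k, g (Fin.cons (x0 k) y'))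
      (fun x0 => Finset.sum_nonneg fun y' _ => hgn x0 y') (∏ i : Fin r, σ i.succ) hP
    have p3 : ∀ x0 : Fin (σ 0) → V, (∑ y' : Fin r → V, ∏ k, g (Fin.cons (x0 k) y')) ^
          (∏ i : Fin r, σ i.succ)
        ≤ (Fintype.card V : ℝ) ^ (r * (∏ i : Fin r, σ i.succ) - ∑ i : Fin r, σ i.succ) *
          ∑ x' : (i : Fin r) → (Fin (σ i.succ) → V),
            ∏ a' : (i : Fin r) → Fin (σ i.succ), ∏ k, g (Fin.cons (x0 k) fun i => x' i (a' i)) :=
      fun x0 => ih (fun i => σ i.succ) (fun i => hσ i.succ)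
        (fun y' => ∏ k, g (Fin.cons (x0 k) y')) (hgn x0)
    have hn : (0 : ℝ) ≤ Fintype.card V := Nat.cast_nonneg _
    have c1 : (Fintype.card (Fin r → V) : ℝ) = (Fintype.card V : ℝ) ^ r := by
      simp
    have c2 : (Fintype.card (Fin (σ 0) → V) : ℝ) = (Fintype.card V : ℝ) ^ (σ 0) := by
      simp
    rw [c1] at p1
    rw [c2] at p2
    have hexp : (r + 1) * (σ 0 * ∏ i : Fin r, σ i.succ) - (σ 0 + ∑ i : Fin r, σ i.succ)
        = r * (σ 0 - 1) * (∏ i : Fin r, σ i.succ) + (σ 0 * ((∏ i : Fin r, σ i.succ) - 1)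
          + (r * (∏ i : Fin r, σ i.succ) - ∑ i : Fin r, σ i.succ)) := by
      generalize (∏ i : Fin r, σ i.succ) = P at *
      generalize (∑ i : Fin r, σ i.succ) = S at *
      obtain ⟨s, hs'⟩ : ∃ s, σ 0 = s + 1 := ⟨σ 0 - 1, by omega⟩
      obtain ⟨p, rfl⟩ : ∃ p, P = p + 1 := ⟨P - 1, by omega⟩
      rw [hs', Nat.add_sub_cancel, Nat.add_sub_cancel]
      obtain ⟨d, hd⟩ : ∃ d, r * (p + 1) = S + d := ⟨r * (p + 1) - S, by omega⟩
      rw [hd, Nat.add_sub_cancel_left]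
      have h2 : (r + 1) * ((s + 1) * (p + 1))
          = (s + 1 + S) + (r * s * (p + 1) + ((s + 1) * p + d)) := by
        have : (r + 1) * ((s + 1) * (p + 1)) = r * s * (p + 1) + r * (p + 1) + (s + 1) * (p + 1) := by
          ring
        rw [this, hd]
        ring
      rw [h2, Nat.add_sub_cancel_left]
    calc (∑ y' : Fin r → V, ∑ v : V, g (Fin.cons v y')) ^ (σ 0 * ∏ i : Fin r, σ i.succ)
        = ((∑ y' : Fin r → V, ∑ v : V, g (Fin.cons v y')) ^ σ 0) ^ (∏ i : Fin r, σ i.succ) := by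
          rw [pow_mul]
      _ ≤ (((Fintype.card V : ℝ) ^ r) ^ (σ 0 - 1) *
            ∑ x0 : Fin (σ 0) → V, ∑ y' : Fin r → V, ∏ k, g (Fin.cons (x0 k) y')) ^
            (∏ i : Fin r, σ i.succ) :=
          pow_le_pow_left₀ (pow_nonneg (Finset.sum_nonneg fun y' _ =>
            Finset.sum_nonneg fun v _ => hg _) _) p1 _
      _ = (Fintype.card V : ℝ) ^ (r * (σ 0 - 1) * (∏ i : Fin r, σ i.succ)) *
            (∑ x0 : Fin (σ 0) → V, ∑ y' : Fin r → V, ∏ k, g (Fin.cons (x0 k) y')) ^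
            (∏ i : Fin r, σ i.succ) := by
          rw [mul_pow, ← pow_mul, ← pow_mul, mul_assoc r]
      _ ≤ (Fintype.card V : ℝ) ^ (r * (σ 0 - 1) * (∏ i : Fin r, σ i.succ)) *
            (((Fintype.card V : ℝ) ^ (σ 0)) ^ ((∏ i : Fin r, σ i.succ) - 1) *
            ∑ x0 : Fin (σ 0) → V, (∑ y' : Fin r → V, ∏ k, g (Fin.cons (x0 k) y')) ^
            (∏ i : Fin r, σ i.succ)) :=
          mul_le_mul_of_nonneg_left p2 (pow_nonneg hn _)
      _ ≤ (Fintype.card V : ℝ) ^ (r * (σ 0 - 1) * (∏ i : Fin r, σ i.succ)) *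
            (((Fintype.card V : ℝ) ^ (σ 0)) ^ ((∏ i : Fin r, σ i.succ) - 1) *
            ∑ x0 : Fin (σ 0) → V,
              ((Fintype.card V : ℝ) ^ (r * (∏ i : Fin r, σ i.succ) - ∑ i : Fin r, σ i.succ) *
              ∑ x' : (i : Fin r) → (Fin (σ i.succ) → V),
              ∏ a' : (i : Fin r) → Fin (σ i.succ),
                ∏ k, g (Fin.cons (x0 k) fun i => x' i (a' i)))) :=
          mul_le_mul_of_nonneg_left (mul_le_mul_of_nonneg_left
            (Finset.sum_le_sum fun x0 _ => p3 x0) (pow_nonneg (pow_nonneg hn _) _))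
            (pow_nonneg hn _)
      _ = _ := by
          rw [← Finset.mul_sum, hexp, pow_add, pow_add, ← pow_mul]
          ring

end Pool.Agent.H248.HG
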