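import Pool.Agent.H248.HG.Defs

/-!
# Small numbers of vertices
-/

set_option autoImplicit false

namespace Pool.Agent.H248.HG

theorem small_n (r : ℕ) (hr : 1 ≤ r) (σ : Fin r → ℕ) (hσ : 2 ≤ ∏ i, σ i) (N : ℕ) :
    ∃ c : ℝ, 0 < c ∧ ∀ t n : ℕ, r < t → t ≤ n → n ≤ N * t →
      ∃ H : Finset (Finset (Fin n)),
      (∀ e ∈ H, e.card = r + 1) ∧ ¬ HasCopy H (Fin.snoc (α := fun _ => ℕ) σ t : Fin (r + 1) → ℕ) ∧
      c * (t : ℝ) ^ (1 / ((∏ i, σ i : ℕ) : ℝ)) *
        (n : ℝ) ^ ((r : ℝ) + 1 - 1 / ((∏ i, σ i : ℕ) : ℝ)) ≤ H.card := by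
  obtain ⟨P, hP⟩ : ∃ P : ℕ, P = ∏ i, σ i := ⟨_, rfl⟩
  rw [← hP] at hσ ⊢
  have hP' : (2 : ℝ) ≤ (P : ℝ) := by exact_mod_cast hσ
  obtain ⟨q, hq⟩ : ∃ q : ℝ, q = 1 / (P : ℝ) := ⟨_, rfl⟩
  rw [← hq]
  have hq0 : 0 < q := by rw [hq]; positivity
  have hq1 : q ≤ 1 := by
    rw [hq, div_le_one (by linarith)]
    linarith
  have hσ1 : ∀ j, 1 ≤ σ j := by
    intro j
    rw [Nat.one_le_iff_ne_zero]
    intro h0
    have : P = 0 := by rw [hP]; exact Finset.prod_eq_zero (Finset.mem_univ j) h0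
    omega
  refine ⟨(((N : ℝ) + 1) ^ (r + 1) * (((r : ℝ) + 1) ^ (r + 1) * ((r + 1).factorial : ℝ)))⁻¹,
    by positivity, ?_⟩
  intro t n ht htn hn
  let F : Finset (Fin n) := Finset.univ.filter fun v => v.val < t
  have hF : F.card = t := by
    have e : F = (Finset.univ : Finset (Fin t)).map (Fin.castLEEmb htn) := by
      ext v
      simp only [F, Finset.mem_filter, Finset.mem_univ, true_and, Finset.mem_map]
      constructor
      · intro hv
        exact ⟨⟨v.1, hv⟩, rfl⟩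
      · rintro ⟨w, rfl⟩
        exact w.2
    rw [e, Finset.card_map]
    simp
  refine ⟨F.powersetCard (r + 1), ?_, ?_, ?_⟩
  · intro e he
    exact (Finset.mem_powersetCard.1 he).2
  · rintro ⟨A, h1, h2, h3⟩
    have hne : ∀ i, (A i).Nonempty := by
      intro i
      rw [← Finset.card_pos, h1 i]
      refine Fin.lastCases ?_ (fun j => ?_) i
      · rw [Fin.snoc_last]
        omega
      · rw [Fin.snoc_castSucc]
        exact hσ1 j
    choose b hb using hne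
    have hsub : ∀ i, A i ⊆ F := by
      intro i v hv
      have h4 := h3 (Function.update b i v) (fun k => by
        by_cases hk : k = i
        · subst hk
          rw [Function.update_self]
          exact hv
        · rw [Function.update_of_ne hk]
          exact hb k)
      apply (Finset.mem_powersetCard.1 h4).1
      rw [Finset.mem_image]
      exact ⟨i, Finset.mem_univ _, Function.update_self _ _ _⟩
    let i0 : Fin (r + 1) := Fin.castSucc ⟨0, hr⟩
    have h4 : i0 ≠ Fin.last r := by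
      intro h
      have := congrArg Fin.val h
      simp [i0] at this
      omega
    have h5 := Finset.card_union_of_disjoint (h2 i0 (Fin.last r) h4)
    have h6 : (A i0 ∪ A (Fin.last r)).card ≤ F.card :=
      Finset.card_le_card (Finset.union_subset (hsub _) (hsub _))
    rw [h5, h1, h1, Fin.snoc_last, Fin.snoc_castSucc, hF] at h6
    have h7 := hσ1 ⟨0, hr⟩
    omega
  · rw [Finset.card_powersetCard, hF]
    have h1 : (t + 1 - (r + 1)) ^ (r + 1) ≤ (r + 1).factorial * t.choose (r + 1) := by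
      rw [← Nat.descFactorial_eq_factorial_mul_choose]
      exact Nat.pow_sub_le_descFactorial t (r + 1)
    have h2 : t ≤ (r + 1) * (t + 1 - (r + 1)) := by
      obtain ⟨d, rfl⟩ : ∃ d, t = r + 1 + d := ⟨t - (r + 1), by omega⟩
      have : r + 1 + d + 1 - (r + 1) = d + 1 := by omega
      rw [this]
      nlinarith
    have h3 : t ^ (r + 1) ≤ (r + 1) ^ (r + 1) * ((r + 1).factorial * t.choose (r + 1)) := by
      calc t ^ (r + 1) ≤ ((r + 1) * (t + 1 - (r + 1))) ^ (r + 1) := Nat.pow_le_pow_left h2 _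
        _ = (r + 1) ^ (r + 1) * (t + 1 - (r + 1)) ^ (r + 1) := Nat.mul_pow _ _ _
        _ ≤ _ := Nat.mul_le_mul_left _ h1
    have h3' : (t : ℝ) ^ (r + 1) ≤
        (((r : ℝ) + 1) ^ (r + 1) * ((r + 1).factorial : ℝ)) * (t.choose (r + 1) : ℝ) := by
      have : (t : ℝ) ^ (r + 1) ≤
          ((r : ℝ) + 1) ^ (r + 1) * (((r + 1).factorial : ℝ) * (t.choose (r + 1) : ℝ)) := by
        exact_mod_cast h3
      linarith
    have ht0 : (0 : ℝ) < t := by
      have : 0 < t := by omega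
      exact_mod_cast this
    have hN1 : (1 : ℝ) ≤ (N : ℝ) + 1 := by
      have : (0 : ℝ) ≤ N := Nat.cast_nonneg N
      linarith
    have hr0 : (0 : ℝ) ≤ r := Nat.cast_nonneg r
    have hexp : 0 ≤ (r : ℝ) + 1 - q := by linarith
    have h4 : (n : ℝ) ^ ((r : ℝ) + 1 - q) ≤ ((N : ℝ) + 1) ^ (r + 1) * (t : ℝ) ^ ((r : ℝ) + 1 - q) := by
      have h5 : (n : ℝ) ≤ ((N : ℝ) + 1) * t := by
        have : (n : ℝ) ≤ N * t := by exact_mod_cast hn
        linarith
      calc (n : ℝ) ^ ((r : ℝ) + 1 - q) ≤ (((N : ℝ) + 1) * t) ^ ((r : ℝ) + 1 - q) :=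
            Real.rpow_le_rpow (Nat.cast_nonneg n) h5 hexp
        _ = ((N : ℝ) + 1) ^ ((r : ℝ) + 1 - q) * (t : ℝ) ^ ((r : ℝ) + 1 - q) :=
            Real.mul_rpow (by linarith) ht0.le
        _ ≤ ((N : ℝ) + 1) ^ (((r + 1 : ℕ) : ℝ)) * (t : ℝ) ^ ((r : ℝ) + 1 - q) := by
            gcongr
            push_cast
            linarith
        _ = _ := by rw [Real.rpow_natCast]
    have h5 : (t : ℝ) ^ q * (t : ℝ) ^ ((r : ℝ) + 1 - q) = (t : ℝ) ^ (r + 1) := by
      rw [← Real.rpow_add ht0, ← Real.rpow_natCast]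
      congr 1
      push_cast
      ring
    obtain ⟨B, hB⟩ : ∃ B : ℝ, B = ((r : ℝ) + 1) ^ (r + 1) * ((r + 1).factorial : ℝ) := ⟨_, rfl⟩
    have hB0 : 0 < B := by rw [hB]; positivity
    rw [← hB] at h3' ⊢
    have hA0 : 0 < ((N : ℝ) + 1) ^ (r + 1) := by positivity
    calc (((N : ℝ) + 1) ^ (r + 1) * B)⁻¹ * (t : ℝ) ^ q * (n : ℝ) ^ ((r : ℝ) + 1 - q)
        ≤ (((N : ℝ) + 1) ^ (r + 1) * B)⁻¹ * (t : ℝ) ^ q *
            (((N : ℝ) + 1) ^ (r + 1) * (t : ℝ) ^ ((r : ℝ) + 1 - q)) := by gcongr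
      _ = B⁻¹ * ((t : ℝ) ^ q * (t : ℝ) ^ ((r : ℝ) + 1 - q)) := by
          field_simp
      _ = B⁻¹ * (t : ℝ) ^ (r + 1) := by rw [h5]
      _ ≤ B⁻¹ * (B * (t.choose (r + 1) : ℝ)) := by gcongr
      _ = (t.choose (r + 1) : ℝ) := by field_simp

end Pool.Agent.H248.HG
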