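import Pool.Agent.H248.HG.Defs
import Pool.Agent.H248.HG.Sid

/-!
# The upper bound of Erdős
-/

set_option autoImplicit false

namespace Pool.Agent.H248.HG

/-- coincidences at two given places are rare -/
theorem coin (r n : ℕ) (σ : Fin r → ℕ) (p q : (i : Fin r) × Fin (σ i)) (hpq : p ≠ q) :
    (Finset.univ.filter fun x : (i : Fin r) → (Fin (σ i) → Fin n) => x p.1 p.2 = x q.1 q.2).card ≤
      n ^ ((∑ i, σ i) - 1) := by
  classical
  have hcard : Fintype.card ({z : (i : Fin r) × Fin (σ i) // z ≠ p} → Fin n) =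
      n ^ ((∑ i, σ i) - 1) := by
    rw [Fintype.card_fun, Fintype.card_fin]
    congr 1
    have h1 : Fintype.card ((i : Fin r) × Fin (σ i)) = ∑ i, σ i := by
      rw [Fintype.card_sigma]
      simp
    rw [← h1]
    simp [Fintype.card_subtype_compl]
  rw [← hcard, ← Finset.card_univ]
  refine Finset.card_le_card_of_injOn
    (fun x => fun z : {z : (i : Fin r) × Fin (σ i) // z ≠ p} => x z.1.1 z.1.2)
    (fun _ _ => Finset.mem_coe.2 (Finset.mem_univ _)) ?_
  intro x hx x' hx' h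
  have h1 := (Finset.mem_filter.1 (Finset.mem_coe.1 hx)).2
  have h2 := (Finset.mem_filter.1 (Finset.mem_coe.1 hx')).2
  have h3 : ∀ z : (i : Fin r) × Fin (σ i), z ≠ p → x z.1 z.2 = x' z.1 z.2 := fun z hz =>
    congrFun h ⟨z, hz⟩
  have h4 : ∀ z : (i : Fin r) × Fin (σ i), x z.1 z.2 = x' z.1 z.2 := by
    intro z
    by_cases hz : z = p
    · subst hz
      rw [h1, h2]
      exact h3 q (Ne.symm hpq)
    · exact h3 z hz
  funext i j
  exact h4 ⟨i, j⟩

/-- most families of maps are injective -/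
theorem noninj (r n : ℕ) (σ : Fin r → ℕ) :
    (Finset.univ.filter fun x : (i : Fin r) → (Fin (σ i) → Fin n) =>
      ∃ i, ¬ Function.Injective (x i)).card ≤ (∑ i, σ i) ^ 2 * n ^ ((∑ i, σ i) - 1) := by
  classical
  have hsub : (Finset.univ.filter fun x : (i : Fin r) → (Fin (σ i) → Fin n) =>
      ∃ i, ¬ Function.Injective (x i)) ⊆
      ((Finset.univ : Finset (((i : Fin r) × Fin (σ i)) × ((i : Fin r) × Fin (σ i)))).filter
        fun pq => pq.1 ≠ pq.2).biUnion fun pq =>
        Finset.univ.filter fun x : (i : Fin r) → (Fin (σ i) → Fin n) =>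
          x pq.1.1 pq.1.2 = x pq.2.1 pq.2.2 := by
    intro x hx
    obtain ⟨i, hi⟩ := (Finset.mem_filter.1 hx).2
    rw [Function.Injective] at hi
    push Not at hi
    obtain ⟨j, k, hjk, hne⟩ := hi
    rw [Finset.mem_biUnion]
    refine ⟨(⟨i, j⟩, ⟨i, k⟩), ?_, ?_⟩
    · rw [Finset.mem_filter]
      refine ⟨Finset.mem_univ _, ?_⟩
      intro h
      apply hne
      simpa using h
    · rw [Finset.mem_filter]
      exact ⟨Finset.mem_univ _, hjk⟩
  have h1 : Fintype.card ((i : Fin r) × Fin (σ i)) = ∑ i, σ i := by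
    rw [Fintype.card_sigma]
    simp
  calc _ ≤ _ := Finset.card_le_card hsub
    _ ≤ _ := Finset.card_biUnion_le
    _ ≤ ∑ _pq ∈ ((Finset.univ : Finset (((i : Fin r) × Fin (σ i)) × ((i : Fin r) × Fin (σ i)))).filter
        fun pq => pq.1 ≠ pq.2), n ^ ((∑ i, σ i) - 1) := by
        refine Finset.sum_le_sum fun pq hpq => ?_
        exact coin r n σ pq.1 pq.2 (Finset.mem_filter.1 hpq).2
    _ = (((Finset.univ : Finset (((i : Fin r) × Fin (σ i)) × ((i : Fin r) × Fin (σ i)))).filter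
        fun pq => pq.1 ≠ pq.2)).card * n ^ ((∑ i, σ i) - 1) := by
        rw [Finset.sum_const, smul_eq_mul]
    _ ≤ (∑ i, σ i) ^ 2 * n ^ ((∑ i, σ i) - 1) := by
        refine Nat.mul_le_mul_right _ ?_
        refine (Finset.card_filter_le _ _).trans ?_
        rw [Finset.card_univ, Fintype.card_prod, h1, sq]

/-- few common neighbours without a copy -/
theorem few_nb (r n : ℕ) (σ : Fin r → ℕ) (hσ : ∀ i, 1 ≤ σ i) (t : ℕ) (ht : 1 ≤ t)
    (H : Finset (Finset (Fin n))) (hH : ∀ e ∈ H, e.card = r + 1)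
    (hno : ¬ HasCopy H (Fin.snoc (α := fun _ => ℕ) σ t : Fin (r + 1) → ℕ))
    (x : (i : Fin r) → (Fin (σ i) → Fin n)) (hx : ∀ i, Function.Injective (x i)) :
    (Finset.univ.filter fun v : Fin n => ∀ a : (i : Fin r) → Fin (σ i),
      Finset.univ.image (Fin.snoc (α := fun _ => Fin n) (fun i => x i (a i)) v) ∈ H).card ≤ t := by
  classical
  by_contra hlt
  push Not at hlt
  obtain ⟨T, hTs, hTc⟩ := Finset.exists_subset_card_eq hlt.le
  apply hno
  have hTm : ∀ v ∈ T, ∀ a : (i : Fin r) → Fin (σ i),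
      Finset.univ.image (Fin.snoc (α := fun _ => Fin n) (fun i => x i (a i)) v) ∈ H := fun v hv =>
    (Finset.mem_filter.1 (hTs hv)).2
  have hinj : ∀ v ∈ T, ∀ a : (i : Fin r) → Fin (σ i),
      Function.Injective (Fin.snoc (α := fun _ => Fin n) (fun i => x i (a i)) v) := by
    intro v hv a
    have h2 : (Finset.univ.image (Fin.snoc (α := fun _ => Fin n) (fun i => x i (a i)) v)).card =
        (Finset.univ : Finset (Fin (r + 1))).card := by
      rw [Finset.card_univ, Fintype.card_fin]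
      exact hH _ (hTm v hv a)
    have h3 := Finset.card_image_iff.1 h2
    rw [Finset.coe_univ] at h3
    exact Set.injOn_univ.1 h3
  have hTne : T.Nonempty := by
    rw [← Finset.card_pos]
    omega
  obtain ⟨v0, hv0⟩ := hTne
  refine ⟨Fin.snoc (α := fun _ => Finset (Fin n)) (fun i => Finset.univ.image (x i)) T, ?_, ?_, ?_⟩
  · intro i
    refine Fin.lastCases ?_ (fun i => ?_) i
    · rw [Fin.snoc_last, Fin.snoc_last]
      exact hTc
    · rw [Fin.snoc_castSucc, Fin.snoc_castSucc, Finset.card_image_of_injective _ (hx i),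
        Finset.card_univ, Fintype.card_fin]
  · have hcc : ∀ i j : Fin r, i ≠ j → Disjoint (Finset.univ.image (x i)) (Finset.univ.image (x j)) := by
      intro i j hij
      rw [Finset.disjoint_left]
      intro z h1 h2
      obtain ⟨p, -, hp⟩ := Finset.mem_image.1 h1
      obtain ⟨q, -, hq⟩ := Finset.mem_image.1 h2
      obtain ⟨a, ha⟩ : ∃ a : (k : Fin r) → Fin (σ k), a = fun k =>
          if hk : k = i then hk ▸ p else if hk' : k = j then hk' ▸ q else ⟨0, hσ k⟩ := ⟨_, rfl⟩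
      have ai : a i = p := by rw [ha]; simp
      have aj : a j = q := by
        rw [ha]
        simp [Ne.symm hij]
      have h3 := hinj v0 hv0 a
      have h4 : Fin.snoc (α := fun _ => Fin n) (fun i => x i (a i)) v0 (Fin.castSucc i) =
          Fin.snoc (α := fun _ => Fin n) (fun i => x i (a i)) v0 (Fin.castSucc j) := by
        rw [Fin.snoc_castSucc, Fin.snoc_castSucc, ai, aj, hp, hq]
      have h5 := h3 h4
      exact hij (Fin.castSucc_injective _ h5)
    have hcl : ∀ i : Fin r, Disjoint (Finset.univ.image (x i)) T := by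
      intro i
      rw [Finset.disjoint_left]
      intro z h1 h2
      obtain ⟨p, -, hp⟩ := Finset.mem_image.1 h1
      obtain ⟨a, ha⟩ : ∃ a : (k : Fin r) → Fin (σ k), a = fun k =>
          if hk : k = i then hk ▸ p else ⟨0, hσ k⟩ := ⟨_, rfl⟩
      have ai : a i = p := by rw [ha]; simp
      have h3 := hinj z h2 a
      have h4 : Fin.snoc (α := fun _ => Fin n) (fun i => x i (a i)) z (Fin.castSucc i) =
          Fin.snoc (α := fun _ => Fin n) (fun i => x i (a i)) z (Fin.last r) := by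
        rw [Fin.snoc_castSucc, Fin.snoc_last, ai, hp]
      have h5 := h3 h4
      exact absurd h5 (Fin.castSucc_lt_last i).ne
    intro i j
    refine Fin.lastCases ?_ (fun i => ?_) i
    · refine Fin.lastCases ?_ (fun j => ?_) j
      · intro h
        exact absurd rfl h
      · intro _
        rw [Fin.snoc_last, Fin.snoc_castSucc]
        exact (hcl j).symm
    · refine Fin.lastCases ?_ (fun j => ?_) j
      · intro _
        rw [Fin.snoc_last, Fin.snoc_castSucc]
        exact hcl i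
      · intro h
        rw [Fin.snoc_castSucc, Fin.snoc_castSucc]
        exact hcc i j fun h' => h (by rw [h'])
  · intro a ha
    have h1 : ∀ i : Fin r, ∃ p : Fin (σ i), x i p = a (Fin.castSucc i) := by
      intro i
      have h2 := ha (Fin.castSucc i)
      rw [Fin.snoc_castSucc] at h2
      obtain ⟨p, -, hp⟩ := Finset.mem_image.1 h2
      exact ⟨p, hp⟩
    choose p hp using h1
    have h2 := ha (Fin.last r)
    rw [Fin.snoc_last] at h2
    have h3 := hTm _ h2 p
    have h4 : Fin.snoc (α := fun _ => Fin n) (fun i => x i (p i)) (a (Fin.last r)) = a := by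
      funext i
      refine Fin.lastCases ?_ (fun i => ?_) i
      · rw [Fin.snoc_last]
      · rw [Fin.snoc_castSucc, hp]
    rw [h4] at h3
    exact h3

/-- every edge is counted -/
theorem card_le (r n : ℕ) (hn : 1 ≤ n) (H : Finset (Finset (Fin n))) (hH : ∀ e ∈ H, e.card = r + 1) :
    H.card ≤ ((Finset.univ : Finset (Fin n × (Fin r → Fin n))).filter fun vy =>
      Finset.univ.image (Fin.snoc (α := fun _ => Fin n) vy.2 vy.1) ∈ H).card := by
  classical
  have hf : ∀ e : Finset (Fin n), ∃ f : Fin (r + 1) → Fin n, e ∈ H → Finset.univ.image f = e := by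
    intro e
    by_cases he : e ∈ H
    · refine ⟨fun i => e.orderEmbOfFin (hH e he) i, fun _ => ?_⟩
      apply Finset.coe_injective
      rw [Finset.coe_image, Finset.coe_univ, Set.image_univ]
      exact Finset.range_orderEmbOfFin e (hH e he)
    · exact ⟨fun _ => ⟨0, hn⟩, fun h => absurd h he⟩
  choose f hf using hf
  refine Finset.card_le_card_of_injOn (fun e => (f e (Fin.last r), Fin.init (α := fun _ => Fin n) (f e))) ?_ ?_
  · intro e he
    rw [Finset.mem_coe, Finset.mem_filter]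
    refine ⟨Finset.mem_univ _, ?_⟩
    simp only
    rw [Fin.snoc_init_self, hf e he]
    exact he
  · intro e he e' he' h
    simp only [Prod.mk.injEq] at h
    rw [← hf e he, ← hf e' he', ← Fin.snoc_init_self (f e), ← Fin.snoc_init_self (f e'), h.1, h.2]

theorem upper_bound (r : ℕ) (hr : 1 ≤ r) (σ : Fin r → ℕ) (hσ : ∀ i, 1 ≤ σ i) :
    ∃ C : ℝ, 0 < C ∧ ∀ t n : ℕ, 1 ≤ t → 1 ≤ n → ∀ H : Finset (Finset (Fin n)),
      (∀ e ∈ H, e.card = r + 1) →
      ¬ HasCopy H (Fin.snoc (α := fun _ => ℕ) σ t : Fin (r + 1) → ℕ) →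
      (H.card : ℝ) ≤ C * (t : ℝ) ^ (1 / ((∏ i, σ i : ℕ) : ℝ)) *
        (n : ℝ) ^ ((r : ℝ) + 1 - 1 / ((∏ i, σ i : ℕ) : ℝ)) := by
  classical
  obtain ⟨P, hP⟩ : ∃ P, P = ∏ i, σ i := ⟨_, rfl⟩
  obtain ⟨s, hs⟩ : ∃ s, s = ∑ i, σ i := ⟨_, rfl⟩
  have hP1 : 1 ≤ P := by
    rw [hP]
    exact Nat.one_le_iff_ne_zero.2 (Finset.prod_ne_zero_iff.2 fun i _ => by have := hσ i; omega)
  have hsP : s ≤ r * P := by
    have h1 : ∀ i ∈ (Finset.univ : Finset (Fin r)), σ i ≤ P := by
      intro i _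
      rw [hP]
      exact Nat.le_of_dvd (by rw [← hP]; omega) (Finset.dvd_prod_of_mem σ (Finset.mem_univ i))
    have h2 := Finset.sum_le_card_nsmul _ _ _ h1
    rw [Finset.card_univ, Fintype.card_fin, smul_eq_mul] at h2
    rw [hs]
    exact h2
  have hs1 : 1 ≤ s := by
    rw [hs]
    have h1 : σ ⟨0, hr⟩ ≤ ∑ i, σ i := Finset.single_le_sum (fun _ _ => Nat.zero_le _) (Finset.mem_univ _)
    have := hσ ⟨0, hr⟩
    omega
  refine ⟨1 + (s : ℝ) ^ 2, by positivity, ?_⟩
  intro t n ht hn H hH hno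
  obtain ⟨C, hC⟩ : ∃ C : ℝ, C = (t : ℝ) + (s : ℝ) ^ 2 := ⟨_, rfl⟩
  have ht1 : (1 : ℝ) ≤ t := by exact_mod_cast ht
  have hC1 : 1 ≤ C := by
    rw [hC]
    have : (0 : ℝ) ≤ (s : ℝ) ^ 2 := by positivity
    linarith
  rw [← hP]
  obtain ⟨g, hg⟩ : ∃ g : Fin n → (Fin r → Fin n) → ℝ, g = fun v y =>
    if Finset.univ.image (Fin.snoc (α := fun _ => Fin n) y v) ∈ H then 1 else 0 := ⟨_, rfl⟩
  have hg0 : ∀ v y, 0 ≤ g v y := by
    intro v y
    rw [hg]
    dsimp only
    split_ifs <;> norm_num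
  have hg1 : ∀ v y, g v y ≤ 1 := by
    intro v y
    rw [hg]
    dsimp only
    split_ifs <;> norm_num
  have hn0 : (0 : ℝ) < n := by exact_mod_cast hn
  -- (1)
  have h1 : (H.card : ℝ) ≤ ∑ v, ∑ y, g v y := by
    have h2 := card_le r n hn H hH
    have h3 : ∑ v, ∑ y, g v y = (((Finset.univ : Finset (Fin n × (Fin r → Fin n))).filter fun vy =>
        Finset.univ.image (Fin.snoc (α := fun _ => Fin n) vy.2 vy.1) ∈ H).card : ℝ) := by
      rw [← Finset.sum_product', ← Finset.univ_product_univ, hg, Finset.card_filter]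
      push_cast
      rfl
    rw [h3]
    exact_mod_cast h2
  -- (2), (3)
  have h2 : (∑ v, ∑ y, g v y) ^ P ≤ (n : ℝ) ^ (P - 1) * ∑ v, (∑ y, g v y) ^ P := by
    have h3 := pow_sum_div_card_le_sum_pow (s := (Finset.univ : Finset (Fin n)))
      (f := fun v => ∑ y, g v y) (fun v _ => Finset.sum_nonneg fun y _ => hg0 v y) (P - 1)
    rw [Nat.sub_add_cancel hP1, Finset.card_univ, Fintype.card_fin, div_le_iff₀ (by positivity)] at h3
    rw [mul_comm]
    exact h3
  have h3 : ∀ v, (∑ y, g v y) ^ P ≤ (n : ℝ) ^ (r * P - s) *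
      ∑ x : (i : Fin r) → (Fin (σ i) → Fin n), ∏ a : (i : Fin r) → Fin (σ i),
        g v fun i => x i (a i) := by
    intro v
    have h4 := sidorenko (Fin n) r σ hσ (g v) (hg0 v)
    rw [Fintype.card_fin, ← hP, ← hs] at h4
    exact h4
  -- (5)
  have h5 : ∀ x : (i : Fin r) → (Fin (σ i) → Fin n), ∑ v, ∏ a : (i : Fin r) → Fin (σ i),
      g v (fun i => x i (a i)) ≤ (t : ℝ) + if ∃ i, ¬ Function.Injective (x i) then (n : ℝ) else 0 := by
    intro x
    have hle1 : ∀ v, ∏ a : (i : Fin r) → Fin (σ i), g v (fun i => x i (a i)) ≤ 1 := fun v =>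
      Finset.prod_le_one (fun a _ => hg0 _ _) fun a _ => hg1 _ _
    by_cases hx : ∃ i, ¬ Function.Injective (x i)
    · rw [if_pos hx]
      have h6 : ∑ v : Fin n, ∏ a : (i : Fin r) → Fin (σ i), g v (fun i => x i (a i)) ≤ ∑ _v : Fin n, (1 : ℝ) :=
        Finset.sum_le_sum fun v _ => hle1 v
      rw [Finset.sum_const, Finset.card_univ, Fintype.card_fin, nsmul_eq_mul, mul_one] at h6
      linarith
    · rw [if_neg hx, add_zero]
      push Not at hx
      have h6 := few_nb r n σ hσ t ht H hH hno x hx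
      have h7 : ∀ v, ∏ a : (i : Fin r) → Fin (σ i), g v (fun i => x i (a i)) ≤
          if (∀ a : (i : Fin r) → Fin (σ i),
            Finset.univ.image (Fin.snoc (α := fun _ => Fin n) (fun i => x i (a i)) v) ∈ H)
          then 1 else 0 := by
        intro v
        split_ifs with h
        · exact hle1 v
        · push Not at h
          obtain ⟨a, ha⟩ := h
          rw [Finset.prod_eq_zero (Finset.mem_univ a)]
          rw [hg]
          dsimp only
          rw [if_neg ha]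
      refine (Finset.sum_le_sum fun v _ => h7 v).trans ?_
      rw [Finset.sum_boole]
      exact_mod_cast h6
  have h6 : ∑ x : (i : Fin r) → (Fin (σ i) → Fin n), ((t : ℝ) +
      if ∃ i, ¬ Function.Injective (x i) then (n : ℝ) else 0) ≤ C * (n : ℝ) ^ s := by
    rw [Finset.sum_add_distrib, Finset.sum_const, Finset.card_univ, ← Finset.sum_filter,
      Finset.sum_const, nsmul_eq_mul, nsmul_eq_mul]
    have h7 : (Fintype.card ((i : Fin r) → (Fin (σ i) → Fin n)) : ℝ) = (n : ℝ) ^ s := by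
      rw [Fintype.card_pi]
      simp only [Fintype.card_fun, Fintype.card_fin]
      rw [Finset.prod_pow_eq_pow_sum, ← hs]
      push_cast
      rfl
    have h8 : ((Finset.univ.filter fun x : (i : Fin r) → (Fin (σ i) → Fin n) =>
        ∃ i, ¬ Function.Injective (x i)).card : ℝ) ≤ (s : ℝ) ^ 2 * (n : ℝ) ^ (s - 1) := by
      have := noninj r n σ
      rw [← hs] at this
      exact_mod_cast this
    rw [h7, hC]
    have h9 : (n : ℝ) ^ s = (n : ℝ) ^ (s - 1) * n := by
      rw [← pow_succ, Nat.sub_add_cancel hs1]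
    calc (n : ℝ) ^ s * t + _ * (n : ℝ) ≤ (n : ℝ) ^ s * t + ((s : ℝ) ^ 2 * (n : ℝ) ^ (s - 1)) * n := by
          have := mul_le_mul_of_nonneg_right h8 hn0.le
          linarith
      _ = ((t : ℝ) + (s : ℝ) ^ 2) * (n : ℝ) ^ s := by
          rw [h9]
          ring
  have h7 : (H.card : ℝ) ^ P ≤ C * (n : ℝ) ^ ((r + 1) * P - 1) := by
    calc (H.card : ℝ) ^ P ≤ (∑ v, ∑ y, g v y) ^ P := pow_le_pow_left₀ (Nat.cast_nonneg _) h1 P
      _ ≤ (n : ℝ) ^ (P - 1) * ∑ v, (∑ y, g v y) ^ P := h2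
      _ ≤ (n : ℝ) ^ (P - 1) * ∑ v, ((n : ℝ) ^ (r * P - s) *
          ∑ x : (i : Fin r) → (Fin (σ i) → Fin n), ∏ a : (i : Fin r) → Fin (σ i),
            g v fun i => x i (a i)) :=
          mul_le_mul_of_nonneg_left (Finset.sum_le_sum fun v _ => h3 v) (by positivity)
      _ = (n : ℝ) ^ (P - 1) * ((n : ℝ) ^ (r * P - s) *
          ∑ x : (i : Fin r) → (Fin (σ i) → Fin n), ∑ v, ∏ a : (i : Fin r) → Fin (σ i),
            g v fun i => x i (a i)) := by
          rw [← Finset.mul_sum, Finset.sum_comm]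
      _ ≤ (n : ℝ) ^ (P - 1) * ((n : ℝ) ^ (r * P - s) * (C * (n : ℝ) ^ s)) := by
          refine mul_le_mul_of_nonneg_left (mul_le_mul_of_nonneg_left ?_ (by positivity)) (by positivity)
          exact (Finset.sum_le_sum fun x _ => h5 x).trans h6
      _ = C * ((n : ℝ) ^ (P - 1) * (n : ℝ) ^ (r * P - s) * (n : ℝ) ^ s) := by ring
      _ = C * (n : ℝ) ^ ((r + 1) * P - 1) := by
          rw [← pow_add, ← pow_add]
          congr 2
          have : (r + 1) * P = r * P + P := by ring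
          omega
  -- roots
  have hPr : (0 : ℝ) < P := by exact_mod_cast hP1
  have h8 : (H.card : ℝ) = ((H.card : ℝ) ^ P) ^ (1 / (P : ℝ)) := by
    rw [← Real.rpow_natCast, ← Real.rpow_mul (Nat.cast_nonneg _), mul_one_div_cancel hPr.ne', Real.rpow_one]
  have h9 : (((n : ℝ) ^ ((r + 1) * P - 1)) : ℝ) ^ (1 / (P : ℝ)) = (n : ℝ) ^ ((r : ℝ) + 1 - 1 / (P : ℝ)) := by
    rw [← Real.rpow_natCast, ← Real.rpow_mul hn0.le]
    congr 1
    have h10 : 1 ≤ (r + 1) * P := Nat.one_le_iff_ne_zero.2 (by positivity)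
    rw [Nat.cast_sub h10]
    push_cast
    field_simp
  rw [h8]
  calc ((H.card : ℝ) ^ P) ^ (1 / (P : ℝ)) ≤ (C * (n : ℝ) ^ ((r + 1) * P - 1)) ^ (1 / (P : ℝ)) :=
        Real.rpow_le_rpow (pow_nonneg (Nat.cast_nonneg _) _) h7 (one_div_nonneg.2 hPr.le)
    _ = C ^ (1 / (P : ℝ)) * ((n : ℝ) ^ ((r + 1) * P - 1)) ^ (1 / (P : ℝ)) :=
        Real.mul_rpow (zero_le_one.trans hC1) (pow_nonneg hn0.le _)
    _ ≤ (1 + (s : ℝ) ^ 2) * (t : ℝ) ^ (1 / (P : ℝ)) * (n : ℝ) ^ ((r : ℝ) + 1 - 1 / (P : ℝ)) := by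
        rw [h9]
        refine mul_le_mul_of_nonneg_right ?_ (by positivity)
        have hs2 : (0 : ℝ) ≤ (s : ℝ) ^ 2 := by positivity
        have h11 : C ≤ (1 + (s : ℝ) ^ 2) * t := by
          rw [hC]
          nlinarith
        have h12 : (1 : ℝ) / P ≤ 1 := by
          rw [div_le_one hPr]
          exact_mod_cast hP1
        calc C ^ (1 / (P : ℝ)) ≤ ((1 + (s : ℝ) ^ 2) * t) ^ (1 / (P : ℝ)) :=
              Real.rpow_le_rpow (by linarith) h11 (one_div_nonneg.2 hPr.le)
          _ = (1 + (s : ℝ) ^ 2) ^ (1 / (P : ℝ)) * (t : ℝ) ^ (1 / (P : ℝ)) :=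
              Real.mul_rpow (by positivity) (by positivity)
          _ ≤ (1 + (s : ℝ) ^ 2) ^ (1 : ℝ) * (t : ℝ) ^ (1 / (P : ℝ)) := by
              refine mul_le_mul_of_nonneg_right ?_ (by positivity)
              exact Real.rpow_le_rpow_of_exponent_le (by linarith) h12
          _ = _ := by rw [Real.rpow_one]

end Pool.Agent.H248.HG
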